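import Pool.Agent.K4H28.SPB.Coll2

set_option autoImplicit false
set_option linter.unusedSectionVars false

/-!
# The collision of two points of different multiplicities
-/

namespace Pool.Agent.K4H28.SP

open MvPolynomial Module Pool.Agent.H248R5 Pool.Agent.H248R6
open Polynomial (degreeLT mem_degreeLT)

variable {K : Type} [Field K] [CharZero K]
variable {n : ℕ} {P : Fin n → Fin 2 → K} {d : ℕ} {q o : Fin n} {w : Fin n → ℕ}

/-- The family of the systems with two points of multiplicities `a` and `b` on a line. -/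
noncomputable def fam2 (p : Fin 2 → K) (c : K) (V : Submodule K (MvPolynomial (Fin 3) K))
    (N a b : ℕ) (t : Fin 1 → K) : (V × (Fin b → degreeLT K N)) →ₗ[K] (Fin b → Polynomial K) :=
  LinearMap.pi fun i =>
    (Lc p c i) ∘ₗ V.subtype ∘ₗ (LinearMap.fst K V (Fin b → degreeLT K N)) -
    (LinearMap.mulLeft K (Polynomial.X ^ (a - (i : ℕ)) *
      (Polynomial.X - Polynomial.C (t 0)) ^ (b - (i : ℕ)))) ∘ₗ (degreeLT K N).subtype ∘ₗ
        (LinearMap.proj i) ∘ₗ (LinearMap.snd K V (Fin b → degreeLT K N))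

theorem fam2_apply (p : Fin 2 → K) (c : K) (V : Submodule K (MvPolynomial (Fin 3) K))
    (N a b : ℕ) (t : Fin 1 → K) (x : V × (Fin b → degreeLT K N)) (i : Fin b) :
    fam2 p c V N a b t x i = Lc p c i x.1 - Polynomial.X ^ (a - (i : ℕ)) *
      (Polynomial.X - Polynomial.C (t 0)) ^ (b - (i : ℕ)) * (x.2 i : Polynomial K) := rfl

theorem isPf_fam2 (p : Fin 2 → K) (c : K) (V : Submodule K (MvPolynomial (Fin 3) K))
    (N a b : ℕ) (x : V × (Fin b → degreeLT K N)) (ψ : (Fin b → Polynomial K) →ₗ[K] K) :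
    IsPf (fun t => ψ (fam2 p c V N a b t x)) := by
  classical
  have h1 : (fun t => ψ (fam2 p c V N a b t x)) = fun t : Fin 1 → K => ∑ i : Fin b,
      ((ψ ∘ₗ LinearMap.single K (fun _ => Polynomial K) i) (Lc p c i x.1) -
        (ψ ∘ₗ LinearMap.single K (fun _ => Polynomial K) i)
          ((Polynomial.X - Polynomial.C (t 0)) ^ (b - (i : ℕ)) *
            (Polynomial.X ^ (a - (i : ℕ)) * (x.2 i : Polynomial K)))) := by
    funext t
    conv_lhs => rw [← LinearMap.sum_single_apply (v := fam2 p c V N a b t x)]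
    rw [map_sum]
    refine Finset.sum_congr rfl fun i _ => ?_
    rw [← map_sub, fam2_apply, LinearMap.comp_apply]
    congr 2
    ring
  rw [h1]
  exact IsPf.sum _ fun i _ => (IsPf.const _).sub (isPf_pow _ _ _)

/-- The members of the limit system. -/
theorem limit_mem2 {a b : ℕ} (hab : a ≤ b) {c : K}
    (hc : ∀ l, b ≤ l → l < a + b → ∀ f ∈ AA P d q w l, f ≠ 0 →
      ¬ (Polynomial.X - Polynomial.C c) ^ (a + b - l) ∣ f)
    (hA : ∀ l, a + b ≤ l → AA P d q w l = ⊥)
    {F : MvPolynomial (Fin 3) K} (hF : F ∈ LL P d q w 0)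
    (h : ∀ i, i < b → ∃ g : Polynomial K, Lc (P q) c i F =
      Polynomial.X ^ (a - i) * (Polynomial.X - Polynomial.C 0) ^ (b - i) * g) : F = 0 := by
  classical
  by_contra hF0
  have hex : ∃ k, F ∉ LL P d q w k := by
    refine ⟨d + 1, fun h1 => hF0 ?_⟩
    rw [LL_big le_rfl, Submodule.mem_bot] at h1
    exact h1
  have h1 := Nat.find_spec hex
  have h2 : Nat.find hex ≠ 0 := by
    intro h3
    rw [h3] at h1
    exact h1 hF
  obtain ⟨l, hl⟩ := Nat.exists_eq_succ_of_ne_zero h2
  have h3 : F ∈ LL P d q w l := by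
    by_contra h4
    have := Nat.find_min' hex h4
    omega
  rw [hl] at h1
  have h4 : ldg P q l F ≠ 0 := fun h5 => h1 ((mem_LL_succ h3).2 h5)
  have hmem := mem_AA h3
  have hlow : ∀ s : Fin 2 →₀ ℕ, s.degree < l → coeff s (tau (P q) F) = 0 :=
    (mem_LL.1 h3).2.1
  set p := plf l (tau (P q) F) with hp
  have hp0 : p ≠ 0 := by
    intro h5
    apply h4
    rw [ldg_eq_zero]
    intro s hs
    have h6 : s.degree = s 0 + s 1 := by
      conv_lhs => rw [ex_surj s]
      rw [ex_degree]
    have h7 := coeff_plf (l := l) (b := s 1) (by omega) (tau (P q) F)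
    rw [← hp, h5, Polynomial.coeff_zero] at h7
    have h8 : ex (l - s 1) (s 1) = s := by
      have : l - s 1 = s 0 := by omega
      rw [this]
      exact (ex_surj s).symm
    rw [h8] at h7
    exact h7.symm
  -- the coefficients of the shifted leading form
  have hz0 : ∀ i, i < b → l < i + ((a - i) + (b - i)) →
      (p.comp (Polynomial.X + Polynomial.C c)).coeff i = 0 := by
    intro i hi hil'
    rcases Nat.lt_or_ge l i with hil | hil
    · refine Polynomial.coeff_eq_zero_of_natDegree_lt ?_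
      refine lt_of_le_of_lt ?_ hil
      rw [Polynomial.natDegree_comp, Polynomial.natDegree_X_add_C, mul_one]
      rw [Polynomial.natDegree_le_iff_coeff_eq_zero]
      intro j hj
      exact coeff_plf_big hj _
    · rw [hp, ← coeff_lead hil hlow]
      obtain ⟨g, hg⟩ := h i hi
      rw [Lc_apply] at hg
      rw [hg, map_zero, sub_zero, ← pow_add, Polynomial.coeff_X_pow_mul', if_neg (by omega)]
  have hbig : ∀ i, l < i → (p.comp (Polynomial.X + Polynomial.C c)).coeff i = 0 := by
    intro i hi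
    refine Polynomial.coeff_eq_zero_of_natDegree_lt ?_
    refine lt_of_le_of_lt ?_ hi
    rw [Polynomial.natDegree_comp, Polynomial.natDegree_X_add_C, mul_one]
    rw [Polynomial.natDegree_le_iff_coeff_eq_zero]
    intro j hj
    exact coeff_plf_big hj _
  rcases Nat.lt_or_ge l b with h5 | h5
  · have h6 : p.comp (Polynomial.X + Polynomial.C c) = 0 := by
      ext i
      rw [Polynomial.coeff_zero]
      rcases Nat.lt_or_ge l i with h7 | h7
      · exact hbig i h7
      · exact hz0 i (by omega) (by omega)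
    exact hp0 (Polynomial.comp_X_add_C_eq_zero_iff.1 h6)
  · rcases Nat.lt_or_ge l (a + b) with h6 | h6
    · have hdvd : (Polynomial.X - Polynomial.C c) ^ (a + b - l) ∣ p := by
        have h5 : (Polynomial.X : Polynomial K) ^ (a + b - l) ∣
            p.comp (Polynomial.X + Polynomial.C c) :=
          Polynomial.X_pow_dvd_iff.2 fun i hi => hz0 i (by omega) (by omega)
        obtain ⟨u, hu⟩ := h5
        refine ⟨u.comp (Polynomial.X - Polynomial.C c), ?_⟩
        have h6 : p = (p.comp (Polynomial.X + Polynomial.C c)).comp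
            (Polynomial.X - Polynomial.C c) := by
          rw [Polynomial.comp_assoc, Polynomial.add_comp, Polynomial.X_comp, Polynomial.C_comp,
            sub_add_cancel, Polynomial.comp_X]
        rw [h6, hu, Polynomial.mul_comp, Polynomial.pow_comp, Polynomial.X_comp]
      exact hc l h5 h6 p hmem hp0 hdvd
    · rw [hA l h6, Submodule.mem_bot] at hmem
      exact hp0 hmem

/-- **Collision of two points of different multiplicities.** -/
theorem collide2 (ho : o ≠ q) (hwo : w o = 0) {a b : ℕ} (hab : a ≤ b)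
    (h : ∀ l, b ≤ l → l + 1 ≤ finrank K (II P d q w l) + (a + b - l)) :
    gd (Function.update (Function.update w q a) o b) d = 0 := by
  classical
  by_contra hne
  have hpos : 1 ≤ gd (Function.update (Function.update w q a) o b) d := Nat.pos_of_ne_zero hne
  -- the slope
  obtain ⟨c, hc⟩ := exists_notMem_of_finite (K := K)
    (S := ⋃ l ∈ Finset.Ico b (a + b), {c : K | ∃ f ∈ AA P d q w l, f ≠ 0 ∧
      (Polynomial.X - Polynomial.C c) ^ (a + b - l) ∣ f}) (by
    refine Set.Finite.biUnion (Finset.finite_toSet _) fun l hl => ?_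
    rw [Finset.mem_coe, Finset.mem_Ico] at hl
    refine wr_finite (a + b - l) (AA P d q w l) ?_
    have h1 := finrank_AA (P := P) (d := d) (q := q) (w := w) l
    have h2 := h l hl.1
    omega)
  have hc' : ∀ l, b ≤ l → l < a + b → ∀ f ∈ AA P d q w l, f ≠ 0 →
      ¬ (Polynomial.X - Polynomial.C c) ^ (a + b - l) ∣ f := by
    intro l h1 h2 f hf hf0 hd
    apply hc
    simp only [Set.mem_iUnion]
    exact ⟨l, Finset.mem_Ico.2 ⟨h1, h2⟩, f, hf, hf0, hd⟩
  have hA : ∀ l, a + b ≤ l → AA P d q w l = ⊥ := by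
    intro l hl
    refine Submodule.finrank_eq_zero.1 ?_
    have h1 := finrank_AA (P := P) (d := d) (q := q) (w := w) l
    have h2 := h l (by omega)
    omega
  obtain ⟨N, hN⟩ := exists_bound (P q) c (LL P d q w 0)
  -- the kernel at zero
  have hker : LinearMap.ker (fam2 (P q) c (LL P d q w 0) N a b (fun _ => 0)) = ⊥ := by
    rw [LinearMap.ker_eq_bot']
    rintro ⟨F, g⟩ hx
    have h1 : ∀ i : Fin b, Lc (P q) c i F = Polynomial.X ^ (a - (i : ℕ)) *
        (Polynomial.X - Polynomial.C 0) ^ (b - (i : ℕ)) * (g i : Polynomial K) := by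
      intro i
      have h2 := congrFun hx i
      rw [fam2_apply] at h2
      exact sub_eq_zero.1 h2
    have h2 : (F : MvPolynomial (Fin 3) K) = 0 :=
      limit_mem2 hab hc' hA F.2 fun i hi => ⟨_, h1 ⟨i, hi⟩⟩
    have h3 : g = 0 := by
      funext i
      have h4 := h1 i
      rw [h2, map_zero] at h4
      have h5 : (Polynomial.X : Polynomial K) ^ (a - (i : ℕ)) *
          (Polynomial.X - Polynomial.C 0) ^ (b - (i : ℕ)) ≠ 0 :=
        mul_ne_zero (pow_ne_zero _ Polynomial.X_ne_zero)
          (pow_ne_zero _ (Polynomial.X_sub_C_ne_zero 0))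
      exact Subtype.ext ((mul_eq_zero.1 h4.symm).resolve_left h5)
    rw [h3, Prod.mk_eq_zero]
    exact ⟨Subtype.ext h2, rfl⟩
  obtain ⟨Φ, hΦ0, hΦ⟩ := inj_open _ (isPf_fam2 (P q) c (LL P d q w 0) N a b) (fun _ => 0) hker
  have h1 : Φ * X 0 ≠ 0 := mul_ne_zero (fun h2 => hΦ0 (by rw [h2, map_zero])) (X_ne_zero 0)
  obtain ⟨t, ht⟩ : ∃ t, eval t (Φ * X 0) ≠ 0 := by
    by_contra hcon
    push Not at hcon
    exact h1 (MvPolynomial.funext fun t => by rw [hcon t, map_zero])
  rw [map_mul, eval_X] at ht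
  have ht0 : t 0 ≠ 0 := right_ne_zero_of_mul ht
  have hkt := hΦ t (left_ne_zero_of_mul ht)
  obtain ⟨F, hF, hF0⟩ := forms_pos hpos (Function.update P o (pt2 (P q) c (t 0)))
  rw [mem_forms'] at hF
  obtain ⟨hF1, hF2⟩ := hF
  have hFV : F ∈ LL P d q w 0 := by
    rw [mem_LL]
    refine ⟨hF1, fun s hs => absurd hs (Nat.not_lt_zero _), fun i hi s hs => ?_⟩
    by_cases hio : i = o
    · subst hio
      rw [hwo] at hs
      exact absurd hs (Nat.not_lt_zero _)
    · have h2 := hF2 i s (by rwa [Function.update_of_ne hio, Function.update_of_ne hi])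
      rwa [Function.update_of_ne hio] at h2
  have hD1 : Dv (Polynomial.X - Polynomial.C 0) a (Eh c 0 (tau (P q) F)) := by
    refine Dv.of_order (c := c) (t := 0) fun s hs => ?_
    rw [pt2_zero]
    have h2 := hF2 q s (by rwa [Function.update_of_ne ho.symm, Function.update_self])
    rwa [Function.update_of_ne ho.symm] at h2
  have hD2 : Dv (Polynomial.X - Polynomial.C (t 0)) b (Eh c 0 (tau (P q) F)) := by
    refine Dv.of_order (c := c) (t := t 0) fun s hs => ?_
    have h2 := hF2 o s (by rwa [Function.update_self])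
    rwa [Function.update_self] at h2
  have hcop : IsCoprime ((Polynomial.X : Polynomial K) - Polynomial.C 0)
      (Polynomial.X - Polynomial.C (t 0)) := by
    refine Polynomial.isCoprime_X_sub_C_of_isUnit_sub ?_
    rw [zero_sub]
    exact (neg_ne_zero.2 ht0).isUnit
  have hex : ∀ i : Fin b, ∃ g : degreeLT K N, Lc (P q) c i F = Polynomial.X ^ (a - (i : ℕ)) *
      (Polynomial.X - Polynomial.C (t 0)) ^ (b - (i : ℕ)) * (g : Polynomial K) := by
    intro i
    have h2 := IsCoprime.mul_dvd (hcop.pow (m := a - (i : ℕ)) (n := b - (i : ℕ))) (hD1 i) (hD2 i)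
    rw [map_zero, sub_zero] at h2
    obtain ⟨g, hg⟩ := h2
    have h3 := hN F hFV i
    rw [Lc_apply] at h3
    refine ⟨⟨g, ?_⟩, by rw [Lc_apply]; exact hg⟩
    by_cases hg0 : g = 0
    · rw [hg0]
      exact Submodule.zero_mem _
    · rw [mem_degreeLT] at h3 ⊢
      refine lt_of_le_of_lt ?_ h3
      refine Polynomial.degree_le_of_dvd (Dvd.intro_left _ hg.symm) ?_
      rw [hg]
      exact mul_ne_zero (mul_ne_zero (pow_ne_zero _ Polynomial.X_ne_zero)
        (pow_ne_zero _ (Polynomial.X_sub_C_ne_zero _))) hg0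
  choose g hg using hex
  have h2 : ((⟨F, hFV⟩, g) : LL P d q w 0 × (Fin b → degreeLT K N)) ∈
      LinearMap.ker (fam2 (P q) c (LL P d q w 0) N a b t) := by
    rw [LinearMap.mem_ker]
    funext i
    rw [fam2_apply]
    exact sub_eq_zero.2 (hg i)
  rw [hkt, Submodule.mem_bot, Prod.mk_eq_zero] at h2
  exact hF0 (congrArg Subtype.val h2.1)

end Pool.Agent.K4H28.SP
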