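import Pool.Agent.K4H28.SPB.Num2

set_option autoImplicit false
set_option linter.unusedSectionVars false

/-!
# The numerical part of the bound for the system without the largest multiplicity
-/

namespace Pool.Agent.K4H28.SP

variable {j i : ℕ → ℕ}

theorem sum_ar (x : ℕ) : ∀ t : ℕ, 2 * ∑ r ∈ Finset.range t, (x + r) + t = t * (2 * x + t) := by
  intro t
  induction t with
  | zero => simp
  | succ t ih =>
    rw [Finset.sum_range_succ]
    nlinarith

theorem sum_sub (y : ℕ) : ∀ t : ℕ,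
    2 * ∑ x ∈ Finset.range t, (y - x) + (y - t) * (y - t + 1) = y * (y + 1) := by
  intro t
  induction t with
  | zero => simp
  | succ t ih =>
    rw [Finset.sum_range_succ, ← ih]
    rcases Nat.lt_or_ge t y with h | h
    · obtain ⟨z, hz⟩ : ∃ z, y - t = z + 1 := ⟨y - t - 1, by omega⟩
      have h1 : y - (t + 1) = z := by omega
      rw [hz, h1]
      ring
    · have h1 : y - t = 0 := by omega
      have h2 : y - (t + 1) = 0 := by omega
      rw [h1, h2]
      omega

theorem Num2.above' (h : Num2 j i) {μ ν : ℕ} (h1 : 1 ≤ j μ) (hν : i ν ≤ ν) (r : ℕ) :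
    ∀ l, μ ≤ l → l + r = ν → i l + 2 * r ≤ i ν := by
  induction r with
  | zero =>
    intro l _ hr
    have : l = ν := by omega
    subst this
    omega
  | succ r ih =>
    intro l hl hr
    have h2 := ih (l + 1) (by omega) (by omega)
    rcases h.strict l (h.pos h1 hl) with h3 | h3
    · omega
    · exfalso
      have h4 := h.full (l := l + 1) (by omega) r
      have h5 : l + 1 + r = ν := by omega
      rw [h5] at h4
      omega

theorem Num2.grow (h : Num2 j i) {e : ℕ} (h1 : 1 ≤ i e) (r : ℕ) : i e + r ≤ i (e + r) := by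
  induction r with
  | zero => exact le_rfl
  | succ r ih =>
    have h2 := h.up' (e + r) (by omega)
    have h3 : e + (r + 1) = e + r + 1 := rfl
    rw [h3]
    omega

/-- **The numerical bound.** -/
theorem Num2.three (h : Num2 j i) {m₁ m₂ m₃ k₁ : ℕ} (h21 : m₂ ≤ m₁) (hk : i k₁ ≤ k₁)
    (hk' : i k₁ + m₁ + m₂ ≤ 2 * k₁)
    (hF : ∀ k₂, k₂ ≤ k₁ → (∀ l, l < k₂ → j l = 0) →
      ∑ k ∈ Finset.range k₂, i k ≤ ∑ x ∈ Finset.range m₃, x) :
    ∑ k ∈ Finset.range m₂, i k ≤ ∑ x ∈ Finset.range ((m₂ + m₃ - m₁) / 2), x := by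
  classical
  obtain ⟨k₂, hle, hj, hk2⟩ : ∃ k₂, k₂ ≤ k₁ ∧ (∀ l, l < k₂ → j l = 0) ∧
      i k₂ + m₁ + m₂ ≤ 2 * k₂ := by
    by_cases hex : ∃ l, l < k₁ ∧ 1 ≤ j l
    · obtain ⟨h1, h2⟩ := Nat.find_spec hex
      refine ⟨Nat.find hex, h1.le, fun l hl => ?_, ?_⟩
      · by_contra h3
        exact Nat.find_min hex hl ⟨by omega, Nat.pos_of_ne_zero h3⟩
      · have h3 := h.above' h2 hk (k₁ - Nat.find hex) (Nat.find hex) le_rfl (by omega)
        omega
    · push Not at hex
      exact ⟨k₁, le_rfl, fun l hl => by have := hex l hl; omega, hk'⟩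
  have hF2 := hF k₂ hle hj
  rcases Nat.eq_zero_or_pos m₂ with h0 | h0
  · rw [h0, Finset.range_zero, Finset.sum_empty]
    exact Nat.zero_le _
  obtain ⟨e, rfl⟩ : ∃ e, m₂ = e + 1 := ⟨m₂ - 1, by omega⟩
  set y := i e with hy
  -- the values below `e`
  have hbel : ∀ k, k ≤ e → i k ≤ y - (e - k) := by
    intro k hke
    rcases Nat.eq_zero_or_pos (i k) with h1 | h1
    · omega
    · have h2 := h.grow h1 (e - k)
      have h3 : k + (e - k) = e := by omega
      rw [h3] at h2
      omega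
  have hS : 2 * ∑ k ∈ Finset.range (e + 1), i k ≤ y * (y + 1) := by
    have h1 : ∑ k ∈ Finset.range (e + 1), i k ≤ ∑ x ∈ Finset.range (e + 1), (y - x) := by
      rw [← Finset.sum_range_reflect (fun x => y - x) (e + 1)]
      refine Finset.sum_le_sum fun k hk => ?_
      have h2 := Finset.mem_range.1 hk
      have h3 := hbel k (by omega)
      have h4 : e + 1 - 1 - k = e - k := by omega
      rw [h4]
      exact h3
    have h2 := sum_sub y (e + 1)
    omega
  rcases Nat.eq_zero_or_pos y with hy0 | hy0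
  · rw [hy0] at hS
    have h1 : ∑ k ∈ Finset.range (e + 1), i k = 0 := by omega
    rw [h1]
    exact Nat.zero_le _
  obtain ⟨D, hD⟩ : ∃ D, m₁ = e + 1 + D := ⟨m₁ - (e + 1), by omega⟩
  set c := (e + 1 + m₃ - m₁) / 2 with hc
  have hg := h.grow (e := e) (by omega) (k₂ - e)
  have hke : e + (k₂ - e) = k₂ := by omega
  rw [hke, ← hy] at hg
  have hT : e + 1 + (D + y + 1) ≤ k₂ := by omega
  have e1 : ∑ k ∈ Finset.range (e + 1 + (D + y + 1)), i k ≤ ∑ k ∈ Finset.range k₂, i k :=
    Finset.sum_le_sum_of_subset (Finset.range_mono hT)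
  rw [Finset.sum_range_add] at e1
  have e2 : ∑ r ∈ Finset.range (D + y + 1), (y + 1 + r) ≤
      ∑ r ∈ Finset.range (D + y + 1), i (e + 1 + r) := by
    refine Finset.sum_le_sum fun r _ => ?_
    have h1 := h.grow (e := e) (by omega) (1 + r)
    rw [← hy, ← add_assoc, ← add_assoc] at h1
    exact h1
  have e3 := sum_ar (y + 1) (D + y + 1)
  have e4 := sum_id2 m₃
  have e5 := sum_id2 c
  set S := ∑ k ∈ Finset.range (e + 1), i k with hSdef
  rcases Nat.lt_or_ge y c with h1 | h1
  · -- `y + 1 ≤ c`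
    have h2 : y * (y + 1) ≤ (c - 1) * c := Nat.mul_le_mul (by omega) (by omega)
    have h3 : (c - 1) * c + c = c * c := by
      obtain ⟨c', hc'⟩ : ∃ c', c = c' + 1 := ⟨c - 1, by omega⟩
      rw [hc', Nat.add_sub_cancel]
      ring
    omega
  · have h2 : m₃ ≤ 2 * c + D + 1 := by omega
    have h3 : m₃ * (m₃ - 1) ≤ (2 * c + D + 1) * (2 * c + D) :=
      Nat.mul_le_mul h2 (by omega)
    have h4 : m₃ * (m₃ - 1) + m₃ = m₃ * m₃ := by
      rcases Nat.eq_zero_or_pos m₃ with h5 | h5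
      · rw [h5]
      · obtain ⟨c', hc'⟩ : ∃ c', m₃ = c' + 1 := ⟨m₃ - 1, by omega⟩
        rw [hc', Nat.add_sub_cancel]
        ring
    have h5 : (D + c + 1) * (3 * c + D + 2) ≤ (D + y + 1) * (3 * y + D + 2) :=
      Nat.mul_le_mul (by omega) (by omega)
    have h6 : 2 * S + (D + y + 1) * (3 * y + D + 2) ≤ m₃ * (m₃ - 1) := by
      have h7 : (D + y + 1) * (2 * (y + 1) + (D + y + 1)) =
          (D + y + 1) * (3 * y + D + 2) + (D + y + 1) := by ring
      rw [h7] at e3
      omega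
    have h8 : 2 * S + (D + c + 1) * (3 * c + D + 2) ≤ (2 * c + D + 1) * (2 * c + D) := by
      omega
    have h9 : 2 * S + c ≤ c * c := by nlinarith
    omega

end Pool.Agent.K4H28.SP
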