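import Pool.Agent.K4H28.SPB.Two
import Pool.Agent.K4H28.SPB.Coll3
import Pool.Agent.K4H28.SPB.Num3

set_option autoImplicit false
set_option linter.unusedSectionVars false

/-!
# The system without the largest multiplicity
-/

namespace Pool.Agent.K4H28.SP

open MvPolynomial Module Pool.Agent.H248R5 Pool.Agent.H248R6

variable {K : Type} [Field K] [CharZero K] {n : ℕ}
variable {P : Fin n → Fin 2 → K} {d : ℕ} {q : Fin n} {m : Fin n → ℕ}

theorem LL_anti {w : Fin n → ℕ} (x r : ℕ) :
    finrank K (LL P d q w (x + r)) ≤ finrank K (LL P d q w x) := by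
  induction r with
  | zero => exact le_rfl
  | succ r ih =>
    exact (Submodule.finrank_mono (LL_succ_le (k := x + r))).trans ih

theorem LL_pos {w : Fin n → ℕ} {k : ℕ} (h : finrank K (II P d q w k) ≤ k) :
    1 ≤ finrank K (LL P d q w k) := by
  have h1 := finrank_II (P := P) (d := d) (q := q) (w := w) (k := k)
  omega

theorem res_upd {S : Finset (Fin n)} {e : Fin n} (he : e ∉ S) (x : ℕ) :
    res (Function.update m e x) S = res m S := by
  funext i
  unfold res
  by_cases h : i ∈ S
  · rw [if_pos h, if_pos h, Function.update_of_ne]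
    rintro rfl
    exact he h
  · rw [if_neg h, if_neg h]

/-- The collision of the two largest points. -/
theorem exists_coll (hP : AlgebraicIndependent ℚ (fun ij : Fin n × Fin 2 => P ij.1 ij.2))
    {S : Finset (Fin n)} {b e : Fin n} (hq : q ∉ insert e (insert b S))
    (hb : b ∉ S) (he : e ∉ insert b S) (hbe : m b ≤ m e)
    (hne : 1 ≤ finrank K (forms (res m (insert e (insert b S))) P d)) :
    ∃ l, finrank K (II P d q (res m S) l) ≤ l ∧
      finrank K (II P d q (res m S) l) + m e + m b ≤ 2 * l := by
  classical
  by_contra hcon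
  push Not at hcon
  simp only [Finset.mem_insert, not_or] at hq he
  obtain ⟨hqe, hqb, hqS⟩ := hq
  obtain ⟨heb, heS⟩ := he
  have h1 := collide2 (P := P) (d := d) (q := q) (o := e) (w := res m S)
    (fun h => hqe h.symm) (res_not heS) (a := m b) (b := m e) hbe (fun l hl => by
      have h2 := finrank_II_le (P := P) (d := d) (q := q) (w := res m S) (k := l)
      by_contra h3
      have h4 := hcon l (by omega)
      omega)
  rw [← finrank_gen hP] at h1
  have hbeS : b ∉ insert e S := by
    rw [Finset.mem_insert]
    rintro (h | h)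
    · exact heb h.symm
    · exact hb h
  have h2 : LL P d q (res m (insert e S)) (m b) =
      forms (Function.update (Function.update (res m S) q (m b)) e (m e)) P d := by
    unfold LL
    rw [res_insert heS, Function.update_comm (fun h => hqe h.symm)]
  have h3 := LL_insert (m := m) (d := d) (q := q) (S := insert e S) (a := b) hP (by
    simp only [Finset.mem_insert, not_or]
    exact ⟨hqe, hqS⟩) hbeS (fun h => hqb h.symm)
  have h4 : insert b (insert e S) = insert e (insert b S) := Finset.insert_comm _ _ _
  rw [h2, h1, h4] at h3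
  omega

/-- The dependent conditions at a further point, counted at the largest point of the system. -/
theorem swap_count (hP : AlgebraicIndependent ℚ (fun ij : Fin n × Fin 2 => P ij.1 ij.2))
    {S : Finset (Fin n)} {a e : Fin n} (hqe : e ≠ q) (hqa : a ≠ q) (hqS : q ∉ S)
    (haS : a ∉ S) (heS : e ∉ S) (hea : e ≠ a)
    (hS : Indep P d m S) (haI : Indep P d m (insert a S)) {k : ℕ}
    (h0 : ∀ l, l < k → finrank K (II P d q (res m S) l) = 0)
    (hk : 1 ≤ finrank K (LL P d q (res m (insert a S)) k)) :
    ∑ l ∈ Finset.range k, finrank K (II P d q (res m (insert a S)) l) ≤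
      ∑ x ∈ Finset.range (m a), x := by
  classical
  set m' := Function.update m e k with hm'
  have hme : m' e = k := Function.update_self _ _ _
  have hma : m' a = m a := Function.update_of_ne hea.symm _ _
  have heaS : e ∉ insert a S := by
    rw [Finset.mem_insert]
    rintro (h | h)
    · exact hea h
    · exact heS h
  have haeS : a ∉ insert e S := by
    rw [Finset.mem_insert]
    rintro (h | h)
    · exact hea h.symm
    · exact haS h
  have hqaS : q ∉ insert a S := by
    rw [Finset.mem_insert]
    rintro (h | h)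
    · exact hqa h.symm
    · exact hqS h
  have hqeS : q ∉ insert e S := by
    rw [Finset.mem_insert]
    rintro (h | h)
    · exact hqe h.symm
    · exact hqS h
  have A1 := sum_insert_eq (m := m') (d := d) (q := q) (S := S) (a := e) hP hqS heS hqe
  have A2 := sum_insert_eq (m := m') (d := d) (q := q) (S := insert a S) (a := e) hP hqaS heaS hqe
  have A3 := sum_insert_eq (m := m') (d := d) (q := q) (S := insert e S) (a := a) hP hqeS haeS hqa
  have B2 := LL_insert (m := m') (d := d) (q := q) (S := insert a S) (a := e) hP hqaS heaS hqe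
  have B3 := LL_insert (m := m') (d := d) (q := q) (S := insert e S) (a := a) hP hqeS haeS hqa
  rw [hme, hm', res_upd heS, ← hm'] at A1
  rw [hme, hm', res_upd heaS, ← hm'] at A2 B2
  rw [hma] at A3 B3
  have hcomm : insert a (insert e S) = insert e (insert a S) := Finset.insert_comm _ _ _
  rw [hcomm] at A3 B3
  have hpos : 1 ≤ finrank K (LL P d q (res m' (insert e S)) (m a)) := by
    rw [B3, ← B2]
    exact hk
  have hz : ∑ l ∈ Finset.range k, finrank K (II P d q (res m S) l) = 0 :=
    Finset.sum_eq_zero fun l hl => h0 l (Finset.mem_range.1 hl)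
  have hle : ∑ x ∈ Finset.range (m a), finrank K (II P d q (res m' (insert e S)) x) ≤
      ∑ x ∈ Finset.range (m a), x :=
    Finset.sum_le_sum fun x hx => notfull hP hpos (Finset.mem_range.1 hx)
  unfold Indep at hS haI
  rw [Finset.sum_insert haS] at haI
  omega

/-- **Leaving out the largest point.** -/
theorem fails_le (hP : AlgebraicIndependent ℚ (fun ij : Fin n × Fin 2 => P ij.1 ij.2))
    {S : Finset (Fin n)} {a b e : Fin n} (hq : q ∉ insert e (insert b (insert a S)))
    (ha : a ∉ S) (hb : b ∉ insert a S) (he : e ∉ insert b (insert a S))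
    (hSa : ∀ i ∈ S, m i ≤ m a) (hbe : m b ≤ m e)
    (hS : Indep P d m S) (haI : Indep P d m (insert a S))
    (hne : 1 ≤ finrank K (forms (res m (insert e (insert b (insert a S)))) P d)) :
    tot P d m (insert b (insert a S)) ≤
      (d + 2).choose 2 + ((m b + m a - m e) / 2).choose 2 := by
  classical
  obtain ⟨k₁, h1, h2⟩ := exists_coll hP hq hb he hbe hne
  simp only [Finset.mem_insert, not_or] at hq he
  obtain ⟨hqe, hqb, hqa, hqS⟩ := hq
  obtain ⟨heb, hea, heS⟩ := he
  have hNum : Num2 (fun k => finrank K (II P d q (res m S) k))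
      (fun k => finrank K (II P d q (res m (insert a S)) k)) := by
    rw [res_insert ha]
    exact num2_inst hP (fun h => hqa h.symm) (res_not ha) (above_update (res_not ha) (res_le hSa))
  have h3 := hNum.three (m₁ := m e) (m₂ := m b) (m₃ := m a) hbe h1 h2 (fun k₂ hk hj => by
    refine swap_count (e := e) hP (fun h => hqe h.symm) (fun h => hqa h.symm) hqS ha heS hea hS haI
      hj ?_
    obtain ⟨r, rfl⟩ := Nat.exists_eq_add_of_le hk
    exact (LL_pos h1).trans (LL_anti k₂ r))
  have hqaS : q ∉ insert a S := by
    rw [Finset.mem_insert]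
    rintro (h | h)
    · exact hqa h
    · exact hqS h
  have h4 := sum_insert_eq (m := m) (d := d) (q := q) (S := insert a S) (a := b) hP hqaS hb
    (fun h => hqb h.symm)
  rw [Finset.sum_range_id, ← Nat.choose_two_right] at h3
  unfold tot
  unfold Indep at haI
  rw [Finset.sum_insert hb]
  omega

variable {U : ℕ → Finset (Fin n)} {a : ℕ → Fin n} {s : ℕ}

/-- **Leaving out the largest point of a chain.** -/
theorem chain_one (hP : AlgebraicIndependent ℚ (fun ij : Fin n × Fin 2 => P ij.1 ij.2))
    (hc : Chain m q U a s) (hs : 3 ≤ s) (hne : 1 ≤ finrank K (forms (res m (U 0)) P d)) :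
    tot P d m (U 1) ≤
      (d + 2).choose 2 + ((m (a 1) + m (a 2) - m (a 0)) / 2).choose 2 := by
  classical
  have e0 : U 0 = insert (a 0) (U 1) := hc.ins 0 (by omega)
  have e1 : U 1 = insert (a 1) (U 2) := hc.ins 1 (by omega)
  have e2 : U 2 = insert (a 2) (U 3) := hc.ins 2 (by omega)
  have n0 : a 0 ∉ U 1 := hc.nmem 0 (by omega)
  have n1 : a 1 ∉ U 2 := hc.nmem 1 (by omega)
  have n2 : a 2 ∉ U 3 := hc.nmem 2 (by omega)
  have hU : insert (a 0) (insert (a 1) (insert (a 2) (U 3))) = U 0 := by
    rw [e0, e1, e2]
  have i3 : Indep P d m (U 3) := by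
    obtain ⟨r, hr⟩ := Nat.exists_eq_add_of_le hs
    exact chain_two hP hc hne r 1 (by omega)
  have i2 : Indep P d m (U 2) := by
    obtain ⟨r, hr⟩ := Nat.exists_eq_add_of_le (show 2 ≤ s by omega)
    exact chain_two hP hc hne r 0 (by omega)
  have h1 := fails_le (e := a 0) (b := a 1) (a := a 2) (S := U 3) hP
    (by rw [hU]; exact hc.not_mem' 0) n2 (by rw [← e2]; exact n1)
    (by rw [← e2, ← e1]; exact n0) (fun i hi => hc.big 2 (by omega) i hi)
    (hc.mono (t := 0) (by omega)) i3 (by rw [← e2]; exact i2) (by rw [hU]; exact hne)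
  rw [← e2, ← e1] at h1
  exact h1

theorem tot_UU {s d t : ℕ} {m : ℕ → ℕ} :
    tot (gpt (s + 1)) d (ext0 (fun i : Fin s => m i)) (sucs (UU s t)) =
      gd (fun i : Fin (s - t) => m (i + t)) d + ∑ i : Fin (s - t), (m (i + t) + 1).choose 2 := by
  classical
  unfold tot
  rw [gd_res, sum_sucs]
  have he : Function.Injective (fun i : Fin (s - t) => (⟨i + t, by omega⟩ : Fin s)) := by
    intro x y hxy
    have h1 := congrArg Fin.val hxy
    simp only at h1
    exact Fin.ext (by omega)
  have h1 : UU s t = Finset.univ.map ⟨fun i : Fin (s - t) => (⟨i + t, by omega⟩ : Fin s), he⟩ := by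
    ext i
    rw [mem_UU, Finset.mem_map]
    constructor
    · intro hi
      refine ⟨⟨i - t, by omega⟩, Finset.mem_univ _, Fin.ext ?_⟩
      change (i : ℕ) - t + t = i
      omega
    · rintro ⟨x, -, hx⟩
      have h2 : (x : ℕ) + t = i := congrArg Fin.val hx
      omega
  rw [gd_emb he (w := res (fun i : Fin s => m i) (UU s t)) (fun j hj => by
    refine res_not fun h2 => ?_
    rw [mem_UU] at h2
    exact hj ⟨j - t, by omega⟩ (Fin.ext (by
      change (j : ℕ) - t + t = j
      omega)))]
  have h2 : (fun i : Fin (s - t) => res (fun i : Fin s => m i) (UU s t)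
      (⟨i + t, by omega⟩ : Fin s)) = fun i : Fin (s - t) => m (i + t) := by
    funext i
    unfold res
    rw [if_pos]
    rw [mem_UU]
    change t ≤ (i : ℕ) + t
    omega
  rw [h2, h1, Finset.sum_map]
  rfl

/-- **Leaving out the largest multiplicity, for the generic dimension.** -/
theorem gd_without_largest {s d : ℕ} {m : ℕ → ℕ} (hm : Antitone m)
    (hne : 1 ≤ gd (fun i : Fin s => m i) d) :
    gd (fun i : Fin (s - 1) => m (i + 1)) d + ∑ i : Fin (s - 1), (m (i + 1) + 1).choose 2 ≤
      (d + 2).choose 2 + ((m 1 + m 2 - m 0) / 2).choose 2 := by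
  classical
  have hP := gpt_ind (s + 1)
  have hc := chain_aa (s := s) hm
  have h0 : 1 ≤ finrank (PtF (s + 1)) (forms (res (ext0 (fun i : Fin s => m i))
      ((fun t => sucs (UU s t)) 0)) (gpt (s + 1)) d) := by
    have e1 : UU s 0 = Finset.univ := by
      ext i
      rw [mem_UU]
      exact ⟨fun _ => Finset.mem_univ _, fun _ => Nat.zero_le _⟩
    change 1 ≤ finrank (PtF (s + 1)) (forms (res (ext0 (fun i : Fin s => m i)) (sucs (UU s 0)))
      (gpt (s + 1)) d)
    rw [gd_res, e1, res_univ]
    exact hne
  have key := tot_UU (s := s) (d := d) (t := 1) (m := m)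
  rw [← key]
  rcases Nat.lt_or_ge 2 s with hs | hs
  · have h1 := chain_one (d := d) hP hc hs h0
    rw [ext0_aa (by omega), ext0_aa (by omega), ext0_aa (by omega)] at h1
    exact h1
  · rcases Nat.lt_or_ge s 2 with hs1 | hs1
    · have h2 : Indep (gpt (s + 1)) d (ext0 (fun i : Fin s => m i)) (sucs (UU s 1)) := by
        rw [UU_nil (by omega)]
        exact indep_empty
      unfold Indep at h2
      unfold tot
      omega
    · -- two points
      have e1 : UU s 1 = insert ⟨1, by omega⟩ ∅ := by
        rw [UU_ins (by omega), UU_nil (by omega)]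
      have h3 := first (P := gpt (s + 1)) (d := d) (q := 0)
        (m := ext0 (fun i : Fin s => m i)) (a := aa s 1) hP (hc.ne 1 (by omega))
      have e2 : sucs (UU s 1) = {aa s 1} := by
        rw [e1, aa_of_lt (by omega)]
        rfl
      have h4 : 1 ≤ finrank (PtF (s + 1)) (forms (res (ext0 (fun i : Fin s => m i))
          (sucs (UU s 1))) (gpt (s + 1)) d) := h0.trans (forms_res_mono (by
            have := hc.sub 1 0
            rwa [zero_add] at this))
      unfold tot
      rw [e2] at h4 ⊢
      rw [Finset.sum_singleton]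
      omega

end Pool.Agent.K4H28.SP
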