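import Pool.Agent.K4H28.SPB.Shear

set_option autoImplicit false
set_option linter.unusedSectionVars false

/-!
# The collision of two points of the same multiplicity
-/

namespace Pool.Agent.K4H28.SP

open MvPolynomial Module Pool.Agent.H248R5 Pool.Agent.H248R6
open Polynomial (degreeLT mem_degreeLT)

variable {K : Type} [Field K]

theorem coeff_plf {l b : ℕ} (hb : b ≤ l) (f : MvPolynomial (Fin 2) K) :
    (plf l f).coeff b = coeff (ex (l - b) b) f := by
  rw [plf_apply, Polynomial.finsetSum_coeff, Finset.sum_eq_single b]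
  · rw [Polynomial.coeff_monomial, if_pos rfl]
  · intro b' _ hne
    rw [Polynomial.coeff_monomial, if_neg hne]
  · intro h
    exact absurd (Finset.mem_range.2 (by omega)) h

theorem coeff_plf_big {l b : ℕ} (hb : l < b) (f : MvPolynomial (Fin 2) K) :
    (plf l f).coeff b = 0 := by
  rw [plf_apply, Polynomial.finsetSum_coeff]
  refine Finset.sum_eq_zero fun b' hb' => ?_
  rw [Polynomial.coeff_monomial, if_neg]
  have := Finset.mem_range.1 hb'
  omega

/-- Binary forms as polynomials. -/
noncomputable def toPol (K : Type) [Field K] (l : ℕ) : (Fin (l + 1) → K) →ₗ[K] Polynomial K :=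
  ∑ b : Fin (l + 1), (Polynomial.monomial (b : ℕ)) ∘ₗ (LinearMap.proj b)

theorem toPol_apply (l : ℕ) (v : Fin (l + 1) → K) :
    toPol K l v = ∑ b : Fin (l + 1), Polynomial.monomial (b : ℕ) (v b) := by
  unfold toPol
  rw [LinearMap.sum_apply]
  rfl

variable {n : ℕ} {P : Fin n → Fin 2 → K} {d : ℕ} {q o : Fin n} {w : Fin n → ℕ}

theorem plf_ldg (l : ℕ) (f : MvPolynomial (Fin 3) K) :
    plf l (tau (P q) f) = toPol K l (ldg P q l f) := by
  rw [plf_apply, toPol_apply, Finset.sum_range]
  rfl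

/-- The leading forms as polynomials. -/
noncomputable def AA (P : Fin n → Fin 2 → K) (d : ℕ) (q : Fin n) (w : Fin n → ℕ) (l : ℕ) :
    Submodule K (Polynomial K) := ((LL P d q w l).map (ldg P q l)).map (toPol K l)

instance (l : ℕ) : FiniteDimensional K (AA P d q w l) := by
  unfold AA
  infer_instance

theorem mem_AA {l : ℕ} {f : MvPolynomial (Fin 3) K} (hf : f ∈ LL P d q w l) :
    plf l (tau (P q) f) ∈ AA P d q w l := by
  rw [plf_ldg]
  exact ⟨_, ⟨f, hf, rfl⟩, rfl⟩

/-- Coefficients of the local equation. -/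
noncomputable def Lc (p : Fin 2 → K) (c : K) (i : ℕ) :
    MvPolynomial (Fin 3) K →ₗ[K] Polynomial K :=
  ((Polynomial.lcoeff (Polynomial K) i).restrictScalars K) ∘ₗ (Eh c 0).toLinearMap ∘ₗ
    (tau p).toLinearMap

theorem Lc_apply (p : Fin 2 → K) (c : K) (i : ℕ) (F : MvPolynomial (Fin 3) K) :
    Lc p c i F = (Eh c 0 (tau p F)).coeff i := rfl

theorem exists_bound (p : Fin 2 → K) (c : K) (V : Submodule K (MvPolynomial (Fin 3) K))
    [FiniteDimensional K V] : ∃ N : ℕ, ∀ F ∈ V, ∀ i, Lc p c i F ∈ degreeLT K N := by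
  classical
  have h1 : ∀ F : MvPolynomial (Fin 3) K, ∃ N : ℕ, ∀ i, Lc p c i F ∈ degreeLT K N := by
    intro F
    refine ⟨(Eh c 0 (tau p F)).support.sup (fun i => ((Eh c 0 (tau p F)).coeff i).natDegree) + 1,
      fun i => ?_⟩
    rw [Lc_apply]
    by_cases hi : (Eh c 0 (tau p F)).coeff i = 0
    · rw [hi]
      exact Submodule.zero_mem _
    · have h2 : ((Eh c 0 (tau p F)).coeff i).natDegree ≤
          (Eh c 0 (tau p F)).support.sup (fun i => ((Eh c 0 (tau p F)).coeff i).natDegree) :=
        Finset.le_sup (f := fun i => ((Eh c 0 (tau p F)).coeff i).natDegree)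
          (Polynomial.mem_support_iff.2 hi)
      rw [mem_degreeLT, Polynomial.degree_lt_iff_coeff_zero]
      intro j hj
      exact Polynomial.coeff_eq_zero_of_natDegree_lt (by omega)
  choose N hN using h1
  obtain ⟨t, ht⟩ : V.FG := (Submodule.fg_iff_finiteDimensional V).2 inferInstance
  refine ⟨t.sup N, fun F hF i => ?_⟩
  have h2 : V ≤ (degreeLT K (t.sup N)).comap (Lc p c i) := by
    rw [← ht, Submodule.span_le]
    intro G hG
    exact Polynomial.degreeLT_mono (Finset.le_sup hG) (hN G i)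
  exact h2 hF

theorem isPf_pow (e : ℕ) : ∀ (g : Polynomial K) (χ : Polynomial K →ₗ[K] K),
    IsPf (fun t : Fin 1 → K => χ ((Polynomial.X - Polynomial.C (t 0)) ^ e * g)) := by
  induction e with
  | zero =>
    intro g χ
    simp only [pow_zero, one_mul]
    exact IsPf.const _
  | succ e ih =>
    intro g χ
    have h1 : (fun t : Fin 1 → K => χ ((Polynomial.X - Polynomial.C (t 0)) ^ (e + 1) * g)) =
        fun t : Fin 1 → K => χ ((Polynomial.X - Polynomial.C (t 0)) ^ e * (Polynomial.X * g)) -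
          t 0 * χ ((Polynomial.X - Polynomial.C (t 0)) ^ e * g) := by
      funext t
      rw [← smul_eq_mul (t 0), ← map_smul, ← map_sub]
      congr 1
      rw [Polynomial.smul_eq_C_mul]
      ring
    rw [h1]
    exact (ih _ _).sub ((IsPf.coord 0).mul (ih _ _))

/-- The family of the systems with two points of multiplicity `a` on a line. -/
noncomputable def fam (p : Fin 2 → K) (c : K) (V : Submodule K (MvPolynomial (Fin 3) K))
    (N a : ℕ) (t : Fin 1 → K) : (V × (Fin a → degreeLT K N)) →ₗ[K] (Fin a → Polynomial K) :=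
  LinearMap.pi fun i =>
    (Lc p c i) ∘ₗ V.subtype ∘ₗ (LinearMap.fst K V (Fin a → degreeLT K N)) -
    (LinearMap.mulLeft K (Polynomial.X ^ (a - (i : ℕ)) *
      (Polynomial.X - Polynomial.C (t 0)) ^ (a - (i : ℕ)))) ∘ₗ (degreeLT K N).subtype ∘ₗ
        (LinearMap.proj i) ∘ₗ (LinearMap.snd K V (Fin a → degreeLT K N))

theorem fam_apply (p : Fin 2 → K) (c : K) (V : Submodule K (MvPolynomial (Fin 3) K))
    (N a : ℕ) (t : Fin 1 → K) (x : V × (Fin a → degreeLT K N)) (i : Fin a) :
    fam p c V N a t x i = Lc p c i x.1 - Polynomial.X ^ (a - (i : ℕ)) *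
      (Polynomial.X - Polynomial.C (t 0)) ^ (a - (i : ℕ)) * (x.2 i : Polynomial K) := rfl

theorem isPf_fam (p : Fin 2 → K) (c : K) (V : Submodule K (MvPolynomial (Fin 3) K))
    (N a : ℕ) (x : V × (Fin a → degreeLT K N)) (ψ : (Fin a → Polynomial K) →ₗ[K] K) :
    IsPf (fun t => ψ (fam p c V N a t x)) := by
  classical
  have h1 : (fun t => ψ (fam p c V N a t x)) = fun t : Fin 1 → K => ∑ i : Fin a,
      ((ψ ∘ₗ LinearMap.single K (fun _ => Polynomial K) i) (Lc p c i x.1) -
        (ψ ∘ₗ LinearMap.single K (fun _ => Polynomial K) i)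
          ((Polynomial.X - Polynomial.C (t 0)) ^ (a - (i : ℕ)) *
            (Polynomial.X ^ (a - (i : ℕ)) * (x.2 i : Polynomial K)))) := by
    funext t
    conv_lhs => rw [← LinearMap.sum_single_apply (v := fam p c V N a t x)]
    rw [map_sum]
    refine Finset.sum_congr rfl fun i _ => ?_
    rw [← map_sub, fam_apply, LinearMap.comp_apply]
    congr 2
    ring
  rw [h1]
  exact IsPf.sum _ fun i _ => (IsPf.const _).sub (isPf_pow _ _ _)

theorem exists_notMem_of_finite [CharZero K] {S : Set K} (h : S.Finite) : ∃ c, c ∉ S :=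
  h.infinite_compl.nonempty

end Pool.Agent.K4H28.SP
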