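import Pool.Agent.K4H28.SP.Fin

set_option autoImplicit false
set_option linter.unusedSectionVars false

/-!
# Dropping one point

For a nonempty system, dropping a point of multiplicity `b` lowers `h¹` by at most `b(b-1)/2`.
-/

namespace Pool.Agent.K4H28.SP

open MvPolynomial Module Pool.Agent.H248R5 Pool.Agent.H248R6

variable {s : ℕ} {m : Fin s → ℕ} {d : ℕ}

theorem res_sdiff_singleton (i₀ : Fin s) :
    res m (Finset.univ \ {i₀}) = Function.update m i₀ 0 := by
  funext i
  by_cases h : i = i₀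
  · subst h
    rw [Function.update_self]
    exact if_neg fun h => (Finset.mem_sdiff.1 h).2 (Finset.mem_singleton_self _)
  · rw [Function.update_of_ne h]
    exact if_pos (Finset.mem_sdiff.2
      ⟨Finset.mem_univ _, fun h' => h (Finset.mem_singleton.1 h')⟩)

theorem sum_split_one (i₀ : Fin s) (w : Fin s → ℕ) :
    ∑ i, (w i + 1).choose 2 =
      (w i₀ + 1).choose 2 + ∑ i ∈ Finset.univ \ {i₀}, (w i + 1).choose 2 := by
  rw [← Finset.erase_eq, Finset.add_sum_erase Finset.univ (fun i => (w i + 1).choose 2)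
    (Finset.mem_univ i₀)]

theorem sum_update_zero (i₀ : Fin s) :
    ∑ i, (Function.update m i₀ 0 i + 1).choose 2 =
      ∑ i ∈ Finset.univ \ {i₀}, (m i + 1).choose 2 := by
  rw [sum_split_one i₀, Function.update_self]
  have h0 : (0 + 1).choose 2 = 0 := rfl
  rw [h0, zero_add]
  refine Finset.sum_congr rfl fun i hi => ?_
  rw [Function.update_of_ne fun h => (Finset.mem_sdiff.1 hi).2 (Finset.mem_singleton.2 h)]

/-- **Dropping one point.** -/
theorem gd_drop (i₀ : Fin s) (hne : 1 ≤ gd m d) :
    gd m d + ∑ i, (m i + 1).choose 2 ≤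
      gd (Function.update m i₀ 0) d + ∑ i, (Function.update m i₀ 0 i + 1).choose 2 +
        (m i₀).choose 2 := by
  classical
  have e1 : insert i₀.succ (sucs (Finset.univ \ {i₀})) = sucs (Finset.univ : Finset (Fin s)) := by
    have h1 : (Finset.univ : Finset (Fin s)) = insert i₀ (Finset.univ \ {i₀}) := by
      rw [← Finset.erase_eq, Finset.insert_erase (Finset.mem_univ i₀)]
    conv_rhs => rw [h1]
    unfold sucs
    rw [Finset.map_insert]
    rfl
  have hP := gpt_ind (s + 1)
  have hq : (0 : Fin (s + 1)) ∉ sucs (Finset.univ \ {i₀}) := zero_sucs _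
  have ha : i₀.succ ∉ sucs (Finset.univ \ {i₀}) := fun h =>
    (Finset.mem_sdiff.1 (succ_sucs.1 h)).2 (Finset.mem_singleton_self _)
  have haq := Fin.succ_ne_zero i₀
  have e3 := sum_insert_eq (m := ext0 m) (d := d) hP hq ha haq
  have e4 := LL_insert (m := ext0 m) (d := d) hP hq ha haq
  have e5 : ext0 m i₀.succ = m i₀ := rfl
  rw [e1, gd_res, gd_res, res_univ, res_sdiff_singleton, e5] at e3
  rw [e1, gd_res, res_univ, e5] at e4
  have h1 : 1 ≤ finrank (PtF (s + 1)) (LL (gpt (s + 1)) d 0
      (res (ext0 m) (sucs (Finset.univ \ {i₀}))) (m i₀)) := by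
    rw [e4]
    exact hne
  have h4 : ∑ k ∈ Finset.range (m i₀), finrank (PtF (s + 1)) (II (gpt (s + 1)) d 0
      (res (ext0 m) (sucs (Finset.univ \ {i₀}))) k) ≤ ∑ k ∈ Finset.range (m i₀), k :=
    Finset.sum_le_sum fun k hk => notfull hP h1 (Finset.mem_range.1 hk)
  have hch : ∑ k ∈ Finset.range (m i₀), k = (m i₀).choose 2 := by
    rw [Finset.sum_range_id, Nat.choose_two_right]
  rw [sum_update_zero, sum_split_one i₀]
  omega

end Pool.Agent.K4H28.SP
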