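import Pool.Agent.K4H28.SP.Thm

set_option autoImplicit false
set_option linter.unusedSectionVars false

/-!
# Polynomial families of linear maps, and high vanishing at a general number
-/

namespace Pool.Agent.K4H28.SP

open Module

section family

open MvPolynomial

variable {K : Type} [Field K] {ι : Type}

/-- Functions which are given by a polynomial. -/
def IsPf (f : (ι → K) → K) : Prop := ∃ p : MvPolynomial ι K, ∀ P, eval P p = f P

theorem IsPf.const (c : K) : IsPf (fun _ : ι → K => c) := ⟨C c, fun P => eval_C _⟩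

theorem IsPf.coord (i : ι) : IsPf (fun P : ι → K => P i) := ⟨X i, fun P => eval_X _⟩

theorem IsPf.add {f g : (ι → K) → K} (hf : IsPf f) (hg : IsPf g) : IsPf (fun P => f P + g P) := by
  obtain ⟨p, hp⟩ := hf
  obtain ⟨r, hr⟩ := hg
  exact ⟨p + r, fun P => by rw [map_add, hp, hr]⟩

theorem IsPf.sub {f g : (ι → K) → K} (hf : IsPf f) (hg : IsPf g) : IsPf (fun P => f P - g P) := by
  obtain ⟨p, hp⟩ := hf
  obtain ⟨r, hr⟩ := hg
  exact ⟨p - r, fun P => by rw [map_sub, hp, hr]⟩

theorem IsPf.mul {f g : (ι → K) → K} (hf : IsPf f) (hg : IsPf g) : IsPf (fun P => f P * g P) := by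
  obtain ⟨p, hp⟩ := hf
  obtain ⟨r, hr⟩ := hg
  exact ⟨p * r, fun P => by rw [map_mul, hp, hr]⟩

theorem IsPf.sum {α : Type} (s : Finset α) {f : α → (ι → K) → K} (hf : ∀ a ∈ s, IsPf (f a)) :
    IsPf (fun P => ∑ a ∈ s, f a P) := by
  classical
  induction s using Finset.induction_on with
  | empty => simpa using IsPf.const 0
  | insert a s ha ih =>
    have h1 := (hf a (Finset.mem_insert_self _ _)).add
      (ih fun b hb => hf b (Finset.mem_insert_of_mem hb))
    simpa only [Finset.sum_insert ha] using h1

/-- A polynomial family of linear maps which is injective for one value of the parameters. -/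
theorem inj_open {V W : Type} [AddCommGroup V] [Module K V] [FiniteDimensional K V]
    [AddCommGroup W] [Module K W] (L : (ι → K) → V →ₗ[K] W)
    (hL : ∀ (x : V) (ψ : W →ₗ[K] K), IsPf (fun P => ψ (L P x))) (P0 : ι → K)
    (h0 : LinearMap.ker (L P0) = ⊥) :
    ∃ Φ : MvPolynomial ι K, eval P0 Φ ≠ 0 ∧ ∀ P, eval P Φ ≠ 0 → LinearMap.ker (L P) = ⊥ := by
  classical
  obtain ⟨g, hg⟩ := LinearMap.exists_leftInverse_of_injective (L P0) h0
  let b := Module.finBasis K V
  have hex : ∀ a c, IsPf (fun P => b.coord a (g (L P (b c)))) := fun a c =>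
    hL (b c) (b.coord a ∘ₗ g)
  choose p hp using hex
  have hΦ : ∀ P, eval P (Matrix.of p).det = LinearMap.det (g ∘ₗ L P) := by
    intro P
    rw [RingHom.map_det, ← LinearMap.det_toMatrix b]
    congr 1
    ext a c
    rw [RingHom.mapMatrix_apply, Matrix.map_apply, Matrix.of_apply, hp, LinearMap.toMatrix_apply]
    rfl
  refine ⟨(Matrix.of p).det, ?_, fun P hP => ?_⟩
  · rw [hΦ, hg, LinearMap.det_id]
    exact one_ne_zero
  · rw [hΦ] at hP
    have h1 : LinearMap.ker (g ∘ₗ L P) = ⊥ := by
      by_contra h2
      exact hP (LinearMap.det_eq_zero_iff_ker_ne_bot.2 h2)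
    exact LinearMap.ker_eq_bot_of_injective fun x y hxy => by
      have h2 := LinearMap.ker_eq_bot.1 h1
      exact h2 (show g (L P x) = g (L P y) by rw [hxy])

end family

section wronski

variable {K : Type} [Field K] [CharZero K]

open Polynomial

/-- The Wronskian with a fixed polynomial. -/
noncomputable def wr (g : K[X]) : K[X] →ₗ[K] K[X] :=
  (LinearMap.mulLeft K g) ∘ₗ Polynomial.derivative - LinearMap.mulLeft K (Polynomial.derivative g)

theorem wr_apply (g f : K[X]) : wr g f = g * derivative f - derivative g * f := rfl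

theorem wr_self (g : K[X]) : wr g g = 0 := by
  rw [wr_apply]
  ring

/-- In a space of polynomials of dimension at most `e`, no polynomial has a zero of order `e` at a
general number. -/
theorem wr_finite : ∀ (e : ℕ) (A : Submodule K K[X]) [FiniteDimensional K A], finrank K A ≤ e →
    {c : K | ∃ f ∈ A, f ≠ 0 ∧ (X - C c) ^ e ∣ f}.Finite := by
  classical
  intro e
  induction e with
  | zero =>
    intro A _ hA
    have h1 : A = ⊥ := Submodule.finrank_eq_zero.1 (by omega)
    convert Set.finite_empty
    rw [Set.eq_empty_iff_forall_notMem]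
    rintro c ⟨f, hf, hf0, -⟩
    rw [h1] at hf
    exact hf0 ((Submodule.mem_bot K).1 hf)
  | succ e ih =>
    intro A _ hA
    by_cases hbot : A = ⊥
    · convert Set.finite_empty
      rw [Set.eq_empty_iff_forall_notMem]
      rintro c ⟨f, hf, hf0, -⟩
      rw [hbot] at hf
      exact hf0 ((Submodule.mem_bot K).1 hf)
    obtain ⟨g, hg, hg0⟩ := Submodule.exists_mem_ne_zero_of_ne_bot hbot
    have h1 : finrank K (A.map (wr g)) ≤ e := by
      have h2 := LinearMap.finrank_range_add_finrank_ker ((wr g).domRestrict A)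
      rw [LinearMap.range_domRestrict] at h2
      have h3 : finrank K (LinearMap.ker ((wr g).domRestrict A)) ≠ 0 := by
        intro h4
        have h5 : LinearMap.ker ((wr g).domRestrict A) = ⊥ := Submodule.finrank_eq_zero.1 h4
        have h6 : (⟨g, hg⟩ : A) ∈ LinearMap.ker ((wr g).domRestrict A) := by
          rw [LinearMap.mem_ker, LinearMap.domRestrict_apply]
          exact wr_self g
        rw [h5, Submodule.mem_bot] at h6
        exact hg0 (congrArg Subtype.val h6)
      omega
    have h2 := ih (A.map (wr g)) h1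
    refine (h2.union (g.roots.toFinset.finite_toSet)).subset ?_
    rintro c ⟨f, hf, hf0, hdvd⟩
    by_cases hT : wr g f = 0
    · right
      rw [Finset.mem_coe, Multiset.mem_toFinset, mem_roots hg0, ← dvd_iff_isRoot]
      have hpr : Prime (X - C c) := prime_X_sub_C c
      obtain ⟨k, u, hu, hk⟩ := WfDvdMonoid.max_power_factor hf0 hpr.irreducible
      have hk0 : k ≠ 0 := by
        intro h3
        rw [h3, pow_zero, one_mul] at hk
        exact hu (hk ▸ (dvd_pow_self _ (Nat.succ_ne_zero e)).trans hdvd)
      obtain ⟨j, rfl⟩ := Nat.exists_eq_succ_of_ne_zero hk0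
      rw [wr_apply, hk, derivative_mul, derivative_X_sub_C_pow] at hT
      simp only [Nat.succ_eq_add_one, Nat.add_sub_cancel] at hT
      have h4 : (X - C c) ^ j * (g * (C ((j + 1 : ℕ) : K) * u + (X - C c) * derivative u) -
          (X - C c) * (derivative g * u)) = 0 := by
        rw [← hT]
        ring
      have h5 := (mul_eq_zero.1 h4).resolve_left (pow_ne_zero _ hpr.ne_zero)
      have h6 : (X - C c) ∣ g * (C ((j + 1 : ℕ) : K) * u) := by
        refine ⟨derivative g * u - g * derivative u, ?_⟩
        linear_combination h5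
      rcases hpr.dvd_or_dvd h6 with h7 | h7
      · exact h7
      · rcases hpr.dvd_or_dvd h7 with h8 | h8
        · exfalso
          have h9 : IsUnit (C ((j + 1 : ℕ) : K)) := by
            rw [isUnit_C]
            exact (by exact_mod_cast Nat.succ_ne_zero j : ((j + 1 : ℕ) : K) ≠ 0).isUnit
          exact hpr.not_unit (isUnit_of_dvd_unit h8 h9)
        · exact absurd h8 hu
    · left
      refine ⟨wr g f, ⟨f, hf, rfl⟩, hT, ?_⟩
      obtain ⟨u, hu⟩ := hdvd
      rw [wr_apply, hu, derivative_mul, derivative_X_sub_C_pow]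
      simp only [Nat.add_sub_cancel]
      refine ⟨g * (C ((e + 1 : ℕ) : K) * u + (X - C c) * derivative u) -
        (X - C c) * (derivative g * u), ?_⟩
      ring

end wronski

end Pool.Agent.K4H28.SP
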