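import Pool.Agent.K4H28.SP.Num

set_option autoImplicit false
set_option linter.unusedSectionVars false

/-!
# The numerical part of the bound for the superabundance
-/

namespace Pool.Agent.K4H28.SP

theorem sum_step (x : ℕ) : ∀ a : ℕ,
    ∑ k ∈ Finset.range a, (x + 4 * k) + 2 * a = a * x + 2 * (a * a) := by
  intro a
  induction a with
  | zero => simp
  | succ a ih =>
    rw [Finset.sum_range_succ]
    nlinarith

theorem sum_id2 : ∀ c : ℕ, 2 * ∑ k ∈ Finset.range c, k + c = c * c := by
  intro c
  induction c with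
  | zero => simp
  | succ c ih =>
    rw [Finset.sum_range_succ]
    nlinarith

theorem sum_shift (a : ℕ) : ∀ c : ℕ,
    ∑ k ∈ Finset.range (a + c), (k - a) = ∑ k ∈ Finset.range c, k := by
  intro c
  rw [Finset.sum_range_add]
  have h1 : ∑ k ∈ Finset.range a, (k - a) = 0 := by
    refine Finset.sum_eq_zero fun k hk => ?_
    have := Finset.mem_range.1 hk
    omega
  rw [h1, zero_add]
  refine Finset.sum_congr rfl fun k _ => ?_
  omega

/-- The properties of the dimensions of the annihilators for two consecutive systems. -/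
structure Num2 (i i' : ℕ → ℕ) : Prop where
  num : Num i i'
  up' : ∀ k, 1 ≤ i' k → i' k + 1 ≤ i' (k + 1)
  strict : ∀ l, 1 ≤ i l → i' l + 2 ≤ i' (l + 1) ∨ i' (l + 1) = l + 2

variable {i i' : ℕ → ℕ}

theorem Num2.full (h : Num2 i i') {l : ℕ} (hl : l + 1 ≤ i' l) (r : ℕ) :
    l + r + 1 ≤ i' (l + r) := by
  induction r with
  | zero => exact hl
  | succ r ih =>
    have h1 := h.up' (l + r) (by omega)
    have h2 : l + (r + 1) = l + r + 1 := rfl
    rw [h2]
    omega

theorem Num2.pos (h : Num2 i i') {μ : ℕ} (h1 : 1 ≤ i μ) {l : ℕ} (hl : μ ≤ l) : 1 ≤ i l := by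
  obtain ⟨r, rfl⟩ := Nat.exists_eq_add_of_le hl
  have := h.num.pos h1 r
  omega

theorem Num2.above (h : Num2 i i') {μ ν : ℕ} (h1 : 1 ≤ i μ) (hν : i' ν ≤ ν) (r : ℕ) :
    ∀ l, μ ≤ l → l + r = ν → i' l + 2 * r ≤ ν := by
  induction r with
  | zero =>
    intro l _ hr
    have : l = ν := by omega
    subst this
    omega
  | succ r ih =>
    intro l hl hr
    have h2 := ih (l + 1) (by omega) (by omega)
    rcases h.strict l (h.pos h1 hl) with h3 | h3
    · omega
    · exfalso
      have h4 := h.full (l := l + 1) (by omega) r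
      have h5 : l + 1 + r = ν := by omega
      rw [h5] at h4
      omega

theorem Num2.below (h : Num2 i i') {μ ν : ℕ} (h2 : i' μ + ν ≤ 2 * μ) (r : ℕ) :
    ∀ l, l + r = μ → i' l = 0 ∨ i' l + ν ≤ μ + l := by
  induction r with
  | zero =>
    intro l hl
    have : l = μ := by omega
    subst this
    omega
  | succ r ih =>
    intro l hl
    rcases Nat.eq_zero_or_pos (i' l) with h3 | h3
    · exact Or.inl h3
    · right
      have h4 := h.up' l h3
      rcases ih (l + 1) (by omega) with h5 | h5
      · omega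
      · omega

/-- **The bound for the superabundance, numerically.** -/
theorem Num2.bound (h : Num2 i i') {m m2 ν : ℕ} (hm : m2 ≤ m) (hmν : m ≤ ν) (hν : i' ν ≤ ν)
    (hnf : ∀ k, k < m → i' k ≤ k) :
    ∑ k ∈ Finset.range m2, i k + ∑ k ∈ Finset.range m, i' k ≤ ∑ k ∈ Finset.range m, k := by
  classical
  by_cases hex : ∃ μ, μ < m2 ∧ 1 ≤ i μ
  · obtain ⟨hμ2, hμ1⟩ := Nat.find_spec hex
    have hmin : ∀ k, k < Nat.find hex → i k = 0 := by
      intro k hk
      by_contra h1
      exact Nat.find_min hex hk ⟨by omega, Nat.pos_of_ne_zero h1⟩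
    set μ := Nat.find hex with hμ
    have hab : ∀ l, μ ≤ l → l ≤ ν → i' l + ν ≤ 2 * l := by
      intro l h1 h2
      have := h.above hμ1 hν (ν - l) l h1 (by omega)
      omega
    have hi : ∀ l, μ ≤ l → l < m → i l + 1 ≤ i' l := by
      intro l h1 h2
      refine h.num.drop l (h.pos hμ1 h1) ?_
      exact (h.num.mono l).trans (hnf l h2)
    have h0 := hab μ le_rfl (by omega)
    have h1 := hi μ le_rfl (by omega)
    obtain ⟨a, ha⟩ : ∃ a, m = μ + a := ⟨m - μ, by omega⟩
    obtain ⟨c, hc⟩ : ∃ c, μ = a + (c + 1) := ⟨μ - a - 1, by omega⟩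
    have e1 : ∑ k ∈ Finset.range m2, i k ≤ ∑ k ∈ Finset.range m, i k :=
      Finset.sum_le_sum_of_subset (Finset.range_mono hm)
    have e2 : ∑ k ∈ Finset.range m, i k + ∑ k ∈ Finset.range m, i' k ≤
        ∑ k ∈ Finset.range (c + 1), k + ∑ k ∈ Finset.range a, (2 * c + 1 + 4 * k) := by
      rw [← Finset.sum_add_distrib]
      conv_lhs => rw [ha]
      rw [Finset.sum_range_add]
      refine Nat.add_le_add ?_ (Finset.sum_le_sum fun k hk => ?_)
      · rw [hc, ← sum_shift a (c + 1)]
        refine Finset.sum_le_sum fun k hk => ?_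
        have h2 := Finset.mem_range.1 hk
        rw [hmin k (by omega)]
        rcases h.below h0 (μ - k) k (by omega) with h3 | h3
        · omega
        · omega
      · have h2 := Finset.mem_range.1 hk
        have h3 := hab (μ + k) (by omega) (by omega)
        have h4 := hi (μ + k) (by omega) (by omega)
        omega
    have e3 := sum_step (2 * c + 1) a
    have e4 := sum_id2 (c + 1)
    have e5 := sum_id2 m
    rw [ha, hc] at e5
    have e6 : ∑ k ∈ Finset.range (a + (c + 1) + a), k = ∑ k ∈ Finset.range m, k := by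
      rw [ha, hc]
    rw [e6] at e5
    nlinarith
  · push Not at hex
    have h1 : ∑ k ∈ Finset.range m2, i k = 0 := by
      refine Finset.sum_eq_zero fun k hk => ?_
      have := hex k (Finset.mem_range.1 hk)
      omega
    rw [h1, zero_add]
    exact Finset.sum_le_sum fun k hk => hnf k (Finset.mem_range.1 hk)

end Pool.Agent.K4H28.SP
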