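import Pool.Agent.K4H28.SP.Fin

set_option autoImplicit false
set_option linter.unusedSectionVars false

/-!
# Products of lines through the points
-/

namespace Pool.Agent.K4H28.SP

open MvPolynomial Module Pool.Agent.H248R5 Pool.Agent.H248R6

variable {K : Type} [Field K] [CharZero K] {n : ℕ} {P : Fin n → Fin 2 → K}

/-- The line through two of the points. -/
noncomputable def ln (P : Fin n → Fin 2 → K) (i j : Fin n) : MvPolynomial (Fin 3) K :=
  lin (![P i 0, P i 1, 1] : Fin 3 → K) ![P j 0, P j 1, 1]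

theorem ln_ne {i j : Fin n} (h : P i ≠ P j) : ln P i j ≠ 0 := by
  have h1 := lin_ne (P := ![P i, P j]) h
  exact h1

/-- Raise the multiplicities at two points. -/
def rs (w : Fin n → ℕ) (i j : Fin n) : Fin n → ℕ := fun k => if k = i ∨ k = j then w k + 1 else w k

theorem ln_mem (i j : Fin n) {w : Fin n → ℕ} {e : ℕ} {f : MvPolynomial (Fin 3) K}
    (hf : f ∈ forms w P e) : ln P i j * f ∈ forms (rs w i j) P (e + 1) := by
  set ℓ := ln P i j with hℓ
  rw [mem_forms] at hf ⊢
  refine ⟨?_, fun k => ?_⟩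
  · have := (lin_homog (![P i 0, P i 1, 1] : Fin 3 → K) ![P j 0, P j 1, 1]).mul hf.1
    rwa [add_comm] at this
  · rw [map_mul]
    unfold rs
    split_ifs with hk
    · rw [pow_succ']
      refine Ideal.mul_mem_mul ?_ (hf.2 k)
      have h1 : constantCoeff (tau (P k) ℓ) = 0 := by
        rw [constCoeff_tau]
        rcases hk with rfl | rfl
        · exact eval_lin_self _ _
        · change eval (![P k 0, P k 1, 1] : Fin 3 → K) ℓ = 0
          rw [hℓ]
          unfold ln
          rw [eval_lin]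
          ring
      have h2 : tau (P k) ℓ ∈ (idealOfVars (Fin 2) K) ^ 1 := by
        rw [mem_pow_idealOfVars_iff']
        intro x hx
        have hx0 : x = 0 := by
          rw [← Finsupp.degree_eq_zero_iff]
          omega
        subst hx0
        exact h1
      rwa [pow_one] at h2
    · exact Ideal.mul_mem_left _ _ (hf.2 k)

theorem one_mem_forms : (1 : MvPolynomial (Fin 3) K) ∈ forms (fun _ => 0) P 0 := by
  rw [mem_forms]
  refine ⟨isHomogeneous_one _ _, fun k => ?_⟩
  rw [pow_zero, Ideal.one_eq_top]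
  exact Submodule.mem_top

theorem gpt_ne {n : ℕ} {i j : Fin n} (h : i ≠ j) : gpt n i ≠ gpt n j := by
  intro h0
  have h3 := congrFun h0 0
  have h4 := (gpt_ind n).injective (a₁ := ((i, 0) : Fin n × Fin 2)) (a₂ := ((j, 0) : Fin n × Fin 2))
    h3
  exact h (congrArg Prod.fst h4)

theorem gd_pos_of_mem {n : ℕ} {w : Fin n → ℕ} {d : ℕ} {f : MvPolynomial (Fin 3) (PtF n)}
    (hf : f ∈ forms w (gpt n) d) (h0 : f ≠ 0) : 1 ≤ gd w d := by
  rw [← finrank_gen (gpt_ind n)]
  by_contra hcon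
  have h1 : forms w (gpt n) d = ⊥ := Submodule.finrank_eq_zero.1 (by omega)
  rw [h1, Submodule.mem_bot] at hf
  exact h0 hf

/-- The square of a triangle. -/
theorem gd_triangle : 1 ≤ gd (fun _ : Fin 3 => 4) 6 := by
  have h01 : gpt 3 0 ≠ gpt 3 1 := gpt_ne (by decide)
  have h02 : gpt 3 0 ≠ gpt 3 2 := gpt_ne (by decide)
  have h12 : gpt 3 1 ≠ gpt 3 2 := gpt_ne (by decide)
  have hm := ln_mem (P := gpt 3) 1 2 (ln_mem 1 2 (ln_mem 0 2 (ln_mem 0 2 (ln_mem 0 1 (ln_mem 0 1
    one_mem_forms)))))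
  have e1 : rs (rs (rs (rs (rs (rs (fun _ : Fin 3 => 0) 0 1) 0 1) 0 2) 0 2) 1 2) 1 2 =
      fun _ => 4 := by
    funext k
    fin_cases k <;> rfl
  rw [e1] at hm
  refine gd_pos_of_mem hm ?_
  have a1 := ln_ne h01
  have a2 := ln_ne h02
  have a3 := ln_ne h12
  exact mul_ne_zero a3 (mul_ne_zero a3 (mul_ne_zero a2 (mul_ne_zero a2 (mul_ne_zero a1
    (mul_ne_zero a1 one_ne_zero)))))

/-- A multiple line. -/
theorem gd_line (m : ℕ) : 1 ≤ gd (fun _ : Fin 2 => m) m := by
  have h : ∃ f ∈ forms (fun _ : Fin 2 => m) (gpt 2) m, f ≠ 0 := by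
    induction m with
    | zero => exact ⟨1, one_mem_forms, one_ne_zero⟩
    | succ m ih =>
      obtain ⟨f, hf, h0⟩ := ih
      refine ⟨ln (gpt 2) 0 1 * f, ?_, mul_ne_zero (ln_ne (gpt_ne (by decide))) h0⟩
      have h1 := ln_mem (P := gpt 2) 0 1 hf
      have e1 : rs (fun _ : Fin 2 => m) 0 1 = fun _ => m + 1 := by
        funext k
        fin_cases k <;> rfl
      rwa [e1] at h1
  obtain ⟨f, hf, h0⟩ := h
  exact gd_pos_of_mem hf h0

end Pool.Agent.K4H28.SP
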