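import Pool.Agent.K4H28.SPB.Opt

set_option autoImplicit false
set_option linter.unusedSectionVars false

/-!
# Three points: the bound for the system without the largest multiplicity is attained
-/

namespace Pool.Agent.K4H28.SP

open MvPolynomial Module Pool.Agent.H248R5 Pool.Agent.H248R6

/-- A multiple of the line through two of the points. -/
theorem ln_pow_mem {K : Type} [Field K] [CharZero K] {n : ℕ} {P : Fin n → Fin 2 → K}
    {i j : Fin n} (hne : P i ≠ P j) {w : Fin n → ℕ} {e : ℕ}
    (h : ∃ f ∈ forms w P e, f ≠ 0) (c : ℕ) :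
    ∃ f ∈ forms (fun k => if k = i ∨ k = j then w k + c else w k) P (e + c), f ≠ 0 := by
  induction c with
  | zero =>
    obtain ⟨f, hf, h0⟩ := h
    refine ⟨f, ?_, h0⟩
    have e1 : (fun k => if k = i ∨ k = j then w k + 0 else w k) = w := by
      funext k
      split_ifs <;> rfl
    rw [e1]
    exact hf
  | succ c ih =>
    obtain ⟨f, hf, h0⟩ := ih
    refine ⟨ln P i j * f, ?_, mul_ne_zero (ln_ne hne) h0⟩
    have h1 := ln_mem i j hf
    have e1 : rs (fun k => if k = i ∨ k = j then w k + c else w k) i j =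
        fun k => if k = i ∨ k = j then w k + (c + 1) else w k := by
      funext k
      unfold rs
      by_cases hk : k = i ∨ k = j
      · simp only [if_pos hk]
        omega
      · simp only [if_neg hk]
    rw [e1] at h1
    exact h1

/-- The three lines through three points. -/
theorem gd_lines {m₁ m₂ m₃ c : ℕ} (h2 : c ≤ m₂) (h3 : c ≤ m₃) (h1 : m₁ + 2 * c ≤ m₂ + m₃) :
    1 ≤ gd ![m₁, m₂, m₃] (m₂ + m₃ - c) := by
  have h01 : gpt 3 0 ≠ gpt 3 1 := gpt_ne (by decide)
  have h02 : gpt 3 0 ≠ gpt 3 2 := gpt_ne (by decide)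
  have h12 : gpt 3 1 ≠ gpt 3 2 := gpt_ne (by decide)
  have s1 := ln_pow_mem h12 (w := fun _ => 0) ⟨1, one_mem_forms (P := gpt 3), one_ne_zero⟩ c
  have s2 := ln_pow_mem h01 s1 (m₂ - c)
  have s3 := ln_pow_mem h02 s2 (m₃ - c)
  obtain ⟨f, hf, h0⟩ := s3
  have hd : 0 + c + (m₂ - c) + (m₃ - c) = m₂ + m₃ - c := by omega
  rw [hd] at hf
  refine gd_pos_of_mem (forms_mono (fun i => ?_) hf) h0
  fin_cases i
  · change m₁ ≤ 0 + (m₂ - c) + (m₃ - c)
    omega
  · change m₂ ≤ 0 + c + (m₂ - c)
    omega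
  · change m₃ ≤ 0 + c + (m₃ - c)
    omega

theorem forms_ln_le {K : Type} [Field K] [CharZero K] {n : ℕ} {P : Fin n → Fin 2 → K}
    {i j : Fin n} (hne : P i ≠ P j) {w : Fin n → ℕ} {e : ℕ} :
    finrank K (forms w P e) ≤ finrank K (forms (rs w i j) P (e + 1)) := by
  let φ : forms w P e →ₗ[K] forms (rs w i j) P (e + 1) :=
    (LinearMap.mulLeft K (ln P i j)).restrict (fun f hf => ln_mem i j hf)
  refine LinearMap.finrank_le_finrank_of_injective (f := φ) ?_
  intro x y hxy
  have h3 := congrArg Subtype.val hxy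
  apply Subtype.ext
  exact mul_left_cancel₀ (ln_ne hne) h3

/-- Two points whose line is a fixed component of multiplicity `c`. -/
theorem gd_two_ge (α β c : ℕ) :
    (α + β + c + 2).choose 2 + c.choose 2 ≤
      gd ![α + c, β + c] (α + β + c) + ((α + c + 1).choose 2 + (β + c + 1).choose 2) := by
  have hc : ∀ k : ℕ, 2 * (k + 1).choose 2 = (k + 1) * k := by
    intro k
    rw [Nat.choose_two_right, Nat.add_sub_cancel]
    refine Nat.mul_div_cancel' ?_
    rw [mul_comm]
    exact (Nat.even_mul_succ_self k).two_dvd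
  have hP := gpt_ind 2
  have hne : gpt 2 0 ≠ gpt 2 1 := gpt_ne (by decide)
  have key : gd ![α, β] (α + β) ≤ gd ![α + c, β + c] (α + β + c) := by
    induction c with
    | zero => exact le_rfl
    | succ c ih =>
      refine ih.trans ?_
      rw [← finrank_gen hP, ← finrank_gen hP]
      have h1 := forms_ln_le (P := gpt 2) hne (w := ![α + c, β + c]) (e := α + β + c)
      have e1 : rs ![α + c, β + c] 0 1 = ![α + (c + 1), β + (c + 1)] := by
        funext k
        fin_cases k <;> rfl
      rw [e1] at h1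
      exact h1
  have h3 := gd_ge (m := ![α, β]) (d := α + β)
  rw [Fin.sum_univ_two] at h3
  have e3 : (![α, β] : Fin 2 → ℕ) 0 = α := rfl
  have e4 : (![α, β] : Fin 2 → ℕ) 1 = β := rfl
  rw [e3, e4] at h3
  have c1 := hc (α + β + c + 1)
  have c2 := hc (α + c)
  have c3 := hc (β + c)
  have c4 := hc α
  have c5 := hc β
  have c6 := hc (α + β + 1)
  have c7 : 2 * c.choose 2 + c = c * c := by
    rcases Nat.eq_zero_or_pos c with h | h
    · subst h
      rfl
    · obtain ⟨x, rfl⟩ : ∃ x, c = x + 1 := ⟨c - 1, by omega⟩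
      have := hc x
      nlinarith
  have e5 : α + β + c + 2 = α + β + c + 1 + 1 := rfl
  have e6 : α + β + 2 = α + β + 1 + 1 := rfl
  rw [e5]
  rw [e6] at h3
  nlinarith

end Pool.Agent.K4H28.SP
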