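import Pool.Agent.K4H28.SPB.Lin

set_option autoImplicit false
set_option linter.unusedSectionVars false

/-!
# Semicontinuity: a system which is empty for special points is empty for general points
-/

namespace Pool.Agent.K4H28.SP

open MvPolynomial Module Pool.Agent.H248R5 Pool.Agent.H248R6

theorem gd_eq_zero {s : ℕ} (w : Fin s → ℕ) (d : ℕ) {K : Type} [Field K] [CharZero K]
    (P0 : Fin s → Fin 2 → K) (h : finrank K (forms w P0 d) = 0) : gd w d = 0 := by
  classical
  let φ : (Fin s × Fin 2 → K) → (MvPolynomial (Fin s × Fin 2) ℚ →+* K) := fun P =>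
    (MvPolynomial.aeval P).toRingHom
  let L : (Fin s × Fin 2 → K) → ({a // a ∈ Ex d} → K) →ₗ[K]
      ((Σ j : Fin s, {b // b ∈ Lo (w j)}) → K) := fun P => ((cmat w d).map (φ P)).mulVecLin
  have hL : ∀ (x : {a // a ∈ Ex d} → K)
      (ψ : ((Σ j : Fin s, {b // b ∈ Lo (w j)}) → K) →ₗ[K] K), IsPf (fun P => ψ (L P x)) := by
    intro x ψ
    have h1 : (fun P => ψ (L P x)) = fun P => ∑ r : (Σ j : Fin s, {b // b ∈ Lo (w j)}),
        (∑ a : {a // a ∈ Ex d}, φ P (cmat w d r a) * x a) * ψ (Pi.single r 1) := by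
      funext P
      have h2 : L P x = ∑ r : (Σ j : Fin s, {b // b ∈ Lo (w j)}),
          (∑ a : {a // a ∈ Ex d}, φ P (cmat w d r a) * x a) •
            (Pi.single r (1 : K) : (Σ j : Fin s, {b // b ∈ Lo (w j)}) → K) := by
        funext r
        rw [Finset.sum_apply, Finset.sum_eq_single r]
        · rw [Pi.smul_apply, Pi.single_eq_same, smul_eq_mul, mul_one]
          rfl
        · intro b _ hb
          rw [Pi.smul_apply, Pi.single_eq_of_ne hb.symm, smul_zero]
        · intro hr
          exact absurd (Finset.mem_univ _) hr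
      rw [h2, map_sum]
      refine Finset.sum_congr rfl fun r _ => ?_
      rw [map_smul, smul_eq_mul]
    rw [h1]
    refine IsPf.sum _ fun r _ => IsPf.mul (IsPf.sum _ fun a _ => IsPf.mul ?_ (IsPf.const _))
      (IsPf.const _)
    refine ⟨MvPolynomial.map (algebraMap ℚ K) (cmat w d r a), fun P => ?_⟩
    rw [eval_map]
    rfl
  have key : ∀ P : Fin s → Fin 2 → K, finrank K (forms w P d) =
      finrank K (LinearMap.ker (L fun ij => P ij.1 ij.2)) := by
    intro P
    have h1 := forms_rank P w d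
    have h2 := LinearMap.finrank_range_add_finrank_ker (L fun ij => P ij.1 ij.2)
    rw [Module.finrank_fintype_fun_eq_card, Fintype.card_coe] at h2
    have h3 : finrank K (LinearMap.range (L fun ij => P ij.1 ij.2)) =
        ((cmat w d).map (MvPolynomial.aeval (fun ij : Fin s × Fin 2 => P ij.1 ij.2)).toRingHom).rank
        := rfl
    omega
  have h0 : LinearMap.ker (L fun ij => P0 ij.1 ij.2) = ⊥ := by
    rw [key] at h
    exact Submodule.finrank_eq_zero.1 h
  obtain ⟨Φ, hΦ0, hΦ⟩ := inj_open L hL (fun ij => P0 ij.1 ij.2) h0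
  obtain ⟨F, hF, h3⟩ := gd_spec w d
  have h4 : Φ * MvPolynomial.map (algebraMap ℚ K) F ≠ 0 := by
    refine mul_ne_zero (fun h5 => hΦ0 (by rw [h5, map_zero])) fun h5 => hF ?_
    exact map_injective _ (algebraMap ℚ K).injective (h5.trans (map_zero _).symm)
  obtain ⟨P, hP⟩ : ∃ P, eval P (Φ * MvPolynomial.map (algebraMap ℚ K) F) ≠ 0 := by
    by_contra hcon
    push Not at hcon
    exact h4 (MvPolynomial.funext fun P => by rw [hcon P, map_zero])
  rw [map_mul] at hP
  have h5 := hΦ P (left_ne_zero_of_mul hP)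
  have h6 := h3 K (fun i j => P (i, j)) (by
    have h7 := right_ne_zero_of_mul hP
    rw [eval_map] at h7
    exact h7)
  rw [key] at h6
  have h7 : (fun ij : Fin s × Fin 2 => (fun i j => P (i, j)) ij.1 ij.2) = P := rfl
  rw [h7, h5, finrank_bot] at h6
  exact h6.symm

theorem forms_pos {s : ℕ} {w : Fin s → ℕ} {d : ℕ} (h : 1 ≤ gd w d) {K : Type} [Field K]
    [CharZero K] (P : Fin s → Fin 2 → K) : ∃ f ∈ forms w P d, f ≠ 0 := by
  by_contra hcon
  push Not at hcon
  have h1 : forms w P d = ⊥ := (Submodule.eq_bot_iff _).2 hcon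
  have h2 := gd_eq_zero w d P (by rw [h1, finrank_bot])
  omega

end Pool.Agent.K4H28.SP
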