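import Pool.Agent.K4H28.SPB.Semi

set_option autoImplicit false
set_option linter.unusedSectionVars false

/-!
# Local equations on a line through a point
-/

namespace Pool.Agent.K4H28.SP

open MvPolynomial Module Pool.Agent.H248R5 Pool.Agent.H248R6

variable {K : Type} [Field K]

/-- The local equation at the point with parameter `t` on the line of slope `c`, as a polynomial in
the coordinate transversal to the line, with coefficients in the coordinate on the line. -/
noncomputable def Eh (c t : K) : MvPolynomial (Fin 2) K →ₐ[K] Polynomial (Polynomial K) :=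
  aeval ![Polynomial.C (Polynomial.X - Polynomial.C t),
    Polynomial.X + Polynomial.C (Polynomial.C c * (Polynomial.X - Polynomial.C t))]

theorem Eh_X0 (c t : K) : Eh c t (X 0) = Polynomial.C (Polynomial.X - Polynomial.C t) := by
  simp [Eh]

theorem Eh_X1 (c t : K) : Eh c t (X 1) =
    Polynomial.X + Polynomial.C (Polynomial.C c * (Polynomial.X - Polynomial.C t)) := by
  simp [Eh]

theorem Eh_C (c t a : K) : Eh c t (C a) = Polynomial.C (Polynomial.C a) := by
  rw [← MvPolynomial.algebraMap_eq, AlgHom.commutes]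
  rfl

/-- The point with parameter `t`. -/
def pt2 (p : Fin 2 → K) (c t : K) : Fin 2 → K := ![p 0 + t, p 1 + c * t]

theorem pt2_zero (p : Fin 2 → K) (c : K) : pt2 p c 0 = p := by
  funext i
  fin_cases i
  · change p 0 + 0 = p 0
    rw [add_zero]
  · change p 1 + c * 0 = p 1
    rw [mul_zero, add_zero]

theorem Eh_tau (p : Fin 2 → K) (c t : K) (F : MvPolynomial (Fin 3) K) :
    Eh c t (tau (pt2 p c t) F) = Eh c 0 (tau p F) := by
  induction F using MvPolynomial.induction_on with
  | C a =>
    have h1 : ∀ r : Fin 2 → K, tau r (C a : MvPolynomial (Fin 3) K) = C a := fun r => by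
      rw [← MvPolynomial.algebraMap_eq, AlgHom.commutes, MvPolynomial.algebraMap_eq]
    rw [h1, h1, Eh_C, Eh_C]
  | add F G hF hG => simp only [map_add, hF, hG]
  | mul_X F i hF =>
    have key : Eh c t (tau (pt2 p c t) (X i)) = Eh c 0 (tau p (X i)) := by
      fin_cases i
      · change Eh c t (tau (pt2 p c t) (X 0)) = Eh c 0 (tau p (X 0))
        rw [tau_X0, tau_X0, map_add, map_add, Eh_X0, Eh_X0, Eh_C, Eh_C]
        change _ + Polynomial.C (Polynomial.C (p 0 + t)) = _
        simp only [map_sub, map_add, map_zero]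
        ring
      · change Eh c t (tau (pt2 p c t) (X 1)) = Eh c 0 (tau p (X 1))
        rw [tau_X1, tau_X1, map_add, map_add, Eh_X1, Eh_X1, Eh_C, Eh_C]
        change _ + Polynomial.C (Polynomial.C (p 1 + c * t)) = _
        simp only [map_sub, map_add, map_zero, map_mul]
        ring
      · change Eh c t (tau (pt2 p c t) (X 2)) = Eh c 0 (tau p (X 2))
        rw [tau_X2, tau_X2, map_one, map_one]
    rw [map_mul, map_mul, map_mul, map_mul, hF, key]

/-- The coefficients are divisible by the powers of `e`. -/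
def Dv (e : Polynomial K) (a : ℕ) (g : Polynomial (Polynomial K)) : Prop :=
  ∀ i, e ^ (a - i) ∣ g.coeff i

theorem Dv.mono {e : Polynomial K} {a b : ℕ} (hab : b ≤ a) {g : Polynomial (Polynomial K)}
    (h : Dv e a g) : Dv e b g := fun i => (pow_dvd_pow e (by omega)).trans (h i)

theorem Dv.zero {e : Polynomial K} {a : ℕ} : Dv e a 0 := fun i => by
  rw [Polynomial.coeff_zero]
  exact dvd_zero _

theorem Dv.add {e : Polynomial K} {a : ℕ} {g h : Polynomial (Polynomial K)} (hg : Dv e a g)
    (hh : Dv e a h) : Dv e a (g + h) := fun i => by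
  rw [Polynomial.coeff_add]
  exact dvd_add (hg i) (hh i)

theorem Dv.mul {e : Polynomial K} {a b : ℕ} {g h : Polynomial (Polynomial K)} (hg : Dv e a g)
    (hh : Dv e b h) : Dv e (a + b) (g * h) := fun i => by
  rw [Polynomial.coeff_mul]
  refine Finset.dvd_sum fun x hx => ?_
  have hx := Finset.HasAntidiagonal.mem_antidiagonal.1 hx
  refine (pow_dvd_pow e (show a + b - i ≤ (a - x.1) + (b - x.2) by omega)).trans ?_
  rw [pow_add]
  exact mul_dvd_mul (hg _) (hh _)

theorem Dv.all {e : Polynomial K} {g : Polynomial (Polynomial K)} : Dv e 0 g := fun i => by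
  rw [Nat.zero_sub, pow_zero]
  exact one_dvd _

theorem Dv.pow {e : Polynomial K} {g : Polynomial (Polynomial K)} (hg : Dv e 1 g) :
    ∀ n, Dv e n (g ^ n) := by
  intro n
  induction n with
  | zero => exact Dv.all
  | succ n ih =>
    rw [pow_succ]
    exact ih.mul hg

theorem Dv.X0 (c t : K) : Dv (Polynomial.X - Polynomial.C t) 1 (Eh c t (X 0)) := fun i => by
  rw [Eh_X0, Polynomial.coeff_C]
  rcases Nat.eq_zero_or_pos i with h | h
  · rw [if_pos h, h, Nat.sub_zero, pow_one]
  · rw [if_neg (by omega)]
    exact dvd_zero _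

theorem Dv.X1 (c t : K) : Dv (Polynomial.X - Polynomial.C t) 1 (Eh c t (X 1)) := fun i => by
  rw [Eh_X1, Polynomial.coeff_add, Polynomial.coeff_X, Polynomial.coeff_C]
  rcases Nat.eq_zero_or_pos i with h | h
  · rw [if_neg (by omega), if_pos h, h, Nat.sub_zero, pow_one, zero_add]
    exact Dvd.intro_left _ rfl
  · rw [show 1 - i = 0 by omega, pow_zero]
    exact one_dvd _

theorem Eh_monomial (c t : K) (s : Fin 2 →₀ ℕ) (u : K) : Eh c t (monomial s u) =
    Polynomial.C (Polynomial.C u) * (Eh c t (X 0) ^ (s 0) * Eh c t (X 1) ^ (s 1)) := by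
  rw [monomial_eq, map_mul, Eh_C, Finsupp.prod_fintype _ _ (fun i => pow_zero _), map_prod,
    Fin.prod_univ_two, map_pow, map_pow]

theorem Dv.monomial (c t : K) (s : Fin 2 →₀ ℕ) (u : K) :
    Dv (Polynomial.X - Polynomial.C t) s.degree (Eh c t (monomial s u)) := by
  rw [Eh_monomial]
  have h1 : s.degree = 0 + (s 0 + s 1) := by
    conv_lhs => rw [ex_surj s]
    rw [ex_degree, zero_add]
  rw [h1]
  exact Dv.all.mul (((Dv.X0 c t).pow _).mul ((Dv.X1 c t).pow _))

/-- Vanishing at the point with parameter `t`. -/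
theorem Dv.of_order {a : ℕ} {p : Fin 2 → K} {c t : K} {F : MvPolynomial (Fin 3) K}
    (h : ∀ s : Fin 2 →₀ ℕ, s.degree < a → coeff s (tau (pt2 p c t) F) = 0) :
    Dv (Polynomial.X - Polynomial.C t) a (Eh c 0 (tau p F)) := by
  classical
  rw [← Eh_tau p c t, (tau (pt2 p c t) F).as_sum, map_sum]
  refine Finset.sum_induction _ (fun g => Dv (Polynomial.X - Polynomial.C t) a g)
    (fun _ _ => Dv.add) Dv.zero fun s hs => ?_
  refine (Dv.monomial c t s _).mono ?_
  by_contra hcon
  exact (mem_support_iff.1 hs) (h s (by omega))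

/-- The leading form, with the coordinate on the line replaced by `1`. -/
noncomputable def plf (l : ℕ) : MvPolynomial (Fin 2) K →ₗ[K] Polynomial K :=
  ∑ b ∈ Finset.range (l + 1), (Polynomial.monomial b) ∘ₗ (lcoeff K (ex (l - b) b))

theorem plf_apply (l : ℕ) (f : MvPolynomial (Fin 2) K) : plf l f =
    ∑ b ∈ Finset.range (l + 1), Polynomial.monomial b (coeff (ex (l - b) b) f) := by
  unfold plf
  rw [LinearMap.sum_apply]
  rfl

theorem ex_inj {a b a' b' : ℕ} (h : ex a b = ex a' b') : a = a' ∧ b = b' := by
  have h0 := DFunLike.congr_fun h 0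
  have h1 := DFunLike.congr_fun h 1
  rw [ex_zero, ex_zero] at h0
  rw [ex_one, ex_one] at h1
  exact ⟨h0, h1⟩

theorem plf_monomial (l a b : ℕ) (hl : l ≤ a + b) (u : K) :
    plf l (monomial (ex a b) u) = if a + b = l then Polynomial.monomial b u else 0 := by
  classical
  rw [plf_apply]
  split_ifs with h
  · rw [Finset.sum_eq_single b]
    · rw [coeff_monomial, if_pos]
      rw [show l - b = a by omega]
    · intro b' hb' hne
      rw [coeff_monomial, if_neg, Polynomial.monomial_zero_right]
      intro h1
      exact hne (ex_inj h1).2.symm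
    · intro h1
      exact absurd (Finset.mem_range.2 (by omega)) h1
  · refine Finset.sum_eq_zero fun b' hb' => ?_
    rw [coeff_monomial, if_neg, Polynomial.monomial_zero_right]
    intro h1
    have h2 := ex_inj h1
    have h3 := Finset.mem_range.1 hb'
    omega

/-- The coefficients of the shifted leading form. -/
theorem coeff_lead {c : K} {l i : ℕ} (hi : i ≤ l) {f : MvPolynomial (Fin 2) K}
    (hf : ∀ s : Fin 2 →₀ ℕ, s.degree < l → coeff s f = 0) :
    ((Eh c 0 f).coeff i).coeff (l - i) =
      ((plf l f).comp (Polynomial.X + Polynomial.C c)).coeff i := by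
  classical
  have key : ∀ (s : Fin 2 →₀ ℕ) (u : K), l ≤ s.degree →
      ((Eh c 0 (monomial s u)).coeff i).coeff (l - i) =
        ((plf l (monomial s u)).comp (Polynomial.X + Polynomial.C c)).coeff i := by
    intro s u hs
    obtain ⟨a, b, rfl⟩ : ∃ a b, s = ex a b := ⟨s 0, s 1, ex_surj s⟩
    rw [ex_degree] at hs
    rw [plf_monomial l a b hs, Eh_monomial, Eh_X0, Eh_X1, ex_zero, ex_one, map_zero, sub_zero,
      ← Polynomial.C_pow, ← mul_assoc, ← Polynomial.C_mul, Polynomial.coeff_C_mul,
      Polynomial.coeff_X_add_C_pow]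
    have h1 : Polynomial.C u * Polynomial.X ^ a *
        ((Polynomial.C c * Polynomial.X) ^ (b - i) * ((b.choose i : ℕ) : Polynomial K)) =
        Polynomial.C (u * (c ^ (b - i) * (b.choose i : K))) * Polynomial.X ^ (a + (b - i)) := by
      rw [mul_pow, pow_add]
      simp only [map_mul, map_pow, map_natCast]
      ring
    rw [h1, Polynomial.coeff_C_mul, Polynomial.coeff_X_pow]
    by_cases hbi : b < i
    · rw [Nat.choose_eq_zero_of_lt hbi, Nat.cast_zero, mul_zero, mul_zero, zero_mul]
      symm
      split_ifs with h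
      · rw [← Polynomial.C_mul_X_pow_eq_monomial, Polynomial.mul_comp, Polynomial.C_comp,
          Polynomial.pow_comp, Polynomial.X_comp, Polynomial.coeff_C_mul,
          Polynomial.coeff_X_add_C_pow, Nat.choose_eq_zero_of_lt hbi, Nat.cast_zero, mul_zero,
          mul_zero]
      · rw [Polynomial.zero_comp, Polynomial.coeff_zero]
    · by_cases h : a + b = l
      · rw [if_pos h, if_pos (by omega), mul_one, ← Polynomial.C_mul_X_pow_eq_monomial,
          Polynomial.mul_comp, Polynomial.C_comp, Polynomial.pow_comp, Polynomial.X_comp,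
          Polynomial.coeff_C_mul, Polynomial.coeff_X_add_C_pow]
      · rw [if_neg h, if_neg (by omega), mul_zero, Polynomial.zero_comp, Polynomial.coeff_zero]
  have hsum : ∀ g : (Fin 2 →₀ ℕ) → Polynomial K,
      (∑ s ∈ f.support, g s).comp (Polynomial.X + Polynomial.C c) =
        ∑ s ∈ f.support, (g s).comp (Polynomial.X + Polynomial.C c) := fun g =>
    map_sum (Polynomial.compRingHom (Polynomial.X + Polynomial.C c)) g f.support
  rw [f.as_sum, map_sum, map_sum, hsum, Polynomial.finsetSum_coeff, Polynomial.finsetSum_coeff,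
    Polynomial.finsetSum_coeff]
  refine Finset.sum_congr rfl fun s hs => key s _ ?_
  by_contra hcon
  exact (mem_support_iff.1 hs) (hf s (by omega))

end Pool.Agent.K4H28.SP
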