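import Pool.Agent.K4H28.SP.Thm

set_option autoImplicit false
set_option linter.unusedSectionVars false

/-!
# The system with one more point: the leading forms contain no power of a linear form

Let `w` be a system for which the annihilator of the leading forms of degree `l` at a further general
point is not zero, and let `w'` be a system with one more point. Then the annihilators for `w'` have
no common factor from the degree `l` on, so their dimensions grow by at least two in each step.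
-/

namespace Pool.Agent.K4H28.SP

open MvPolynomial Module Pool.Agent.H248R5 Pool.Agent.H248R6
open Polynomial (degreeLT mem_degreeLT degreeLTEquiv)

variable {K : Type} [Field K] [CharZero K] {n : ℕ}
variable {P : Fin n → Fin 2 → K} {d : ℕ} {q o : Fin n} {w w' : Fin n → ℕ} {k : ℕ}

/-- A derivation for which a space is stable has the same property for the multiples of a prime
which divides all the elements of the space. -/
theorem prime_dvd_sub {T : Polynomial K → Polynomial K}
    (hT : ∀ f g, T (f * g) = T f * g + f * T g) {A : Submodule K (Polynomial K)}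
    (hA : ∀ f ∈ A, T f ∈ A) {ℓ : Polynomial K} (hℓ : Prime ℓ) (hd : ∀ f ∈ A, ℓ ∣ f)
    (h0 : A ≠ ⊥) : ℓ ∣ T ℓ := by
  classical
  have hT1 : T 1 = 0 := by
    have h1 := hT 1 1
    simp only [mul_one, one_mul] at h1
    exact left_eq_add.1 h1 |>.trans rfl
  have hpow : ∀ n : ℕ, T (ℓ ^ (n + 1)) = ((n : Polynomial K) + 1) * ℓ ^ n * T ℓ := by
    intro n
    induction n with
    | zero => simp
    | succ n ih =>
      rw [pow_succ, hT, ih]
      push_cast
      ring
  have hex : ∃ n : ℕ, ∃ u : Polynomial K, ¬ ℓ ∣ u ∧ ℓ ^ n * u ∈ A := by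
    obtain ⟨f, hf, hf0⟩ := Submodule.exists_mem_ne_zero_of_ne_bot h0
    obtain ⟨n, u, hu, hn⟩ := WfDvdMonoid.max_power_factor hf0 hℓ.irreducible
    exact ⟨n, u, hu, hn ▸ hf⟩
  obtain ⟨u, hu, hmem⟩ := Nat.find_spec hex
  have hmin : ∀ f ∈ A, ℓ ^ (Nat.find hex) ∣ f := by
    intro f hf
    by_cases hf0 : f = 0
    · rw [hf0]
      exact dvd_zero _
    · obtain ⟨n, v, hv, hn⟩ := WfDvdMonoid.max_power_factor hf0 hℓ.irreducible
      have h1 := Nat.find_min' hex ⟨v, hv, hn ▸ hf⟩
      rw [hn]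
      exact (pow_dvd_pow ℓ h1).mul_right v
  have hpos : Nat.find hex ≠ 0 := by
    intro h1
    rw [h1, pow_zero, one_mul] at hmem
    exact hu (hd _ hmem)
  obtain ⟨n, hn⟩ := Nat.exists_eq_succ_of_ne_zero hpos
  rw [hn] at hmem hmin
  have h1 := hmin _ (hA _ hmem)
  rw [hT, hpow] at h1
  have h2 : ℓ ^ (n + 1) ∣ ℓ ^ n * (((n : Polynomial K) + 1) * T ℓ * u) := by
    have h3 : ((n : Polynomial K) + 1) * ℓ ^ n * T ℓ * u =
        ℓ ^ n * (((n : Polynomial K) + 1) * T ℓ * u) := by ring
    rw [← h3]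
    exact (dvd_add_left (Dvd.intro _ rfl)).1 h1
  rw [pow_succ] at h2
  have h3 : ℓ ∣ ((n : Polynomial K) + 1) * T ℓ * u :=
    (mul_dvd_mul_iff_left (pow_ne_zero n hℓ.ne_zero)).1 h2
  have h4 : IsUnit ((n : Polynomial K) + 1) := by
    have h5 : ((n : Polynomial K) + 1) = Polynomial.C ((n : K) + 1) := by simp
    rw [h5, Polynomial.isUnit_C]
    exact (Nat.cast_add_one_ne_zero n).isUnit
  rcases hℓ.dvd_or_dvd h3 with h5 | h5
  · exact (IsUnit.dvd_mul_left h4).1 h5
  · exact absurd h5 hu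

/-- The annihilators have no common factor. -/
theorem no_common_sub (hP : AlgebraicIndependent ℚ (fun ij : Fin n × Fin 2 => P ij.1 ij.2))
    (ho : o ≠ q) (hwo : w o = 0) {k : ℕ} (h0 : 1 ≤ finrank K (II P d q w k)) :
    ¬ ∃ ℓ : Polynomial K, Irreducible ℓ ∧ ∀ j, j ≠ q → ∀ φ ∈ II P d q (sw w o j) k, ℓ ∣ φ := by
  rintro ⟨ℓ, hℓ, hdvd⟩
  have hpr : Prime ℓ := hℓ.prime
  obtain ⟨D, hD, hE0, hE1, -, -⟩ := exists_ders hP q
  have hne : ∀ j, j ≠ q → II P d q (sw w o j) k ≠ ⊥ := by
    intro j hj h1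
    have h2 := finrank_II_sw (d := d) (w := w) hP ho hj k
    rw [h1, finrank_bot] at h2
    omega
  -- the derivatives
  have h1 : ∀ (j : Fin n) (b : Fin 2), j ≠ q → ℓ ∣ dP (D j b) ℓ := by
    intro j b hj
    refine prime_dvd_sub (T := dP (D j b)) (dP_mul _) (A := II P d q (sw w o j) k) ?_ hpr
      (hdvd j hj) (hne j hj)
    intro φ hφ
    refine dP_mem_II (fun c => hD j b q c (fun h => hj h.1.symm)) (fun i _ hi c => ?_) hφ
    refine hD j b i c (fun h => hi ?_)
    rw [h.1, sw_right, hwo]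
  set DE := ∑ j, (P j 1 - P q 1) • D j 0 with hDE
  have h2 : ℓ ∣ dP DE ℓ := by
    rw [hDE, dP_der_sum]
    refine Finset.dvd_sum fun j _ => ?_
    by_cases hj : j = q
    · subst hj
      rw [sub_self, Polynomial.C_0, zero_mul]
      exact dvd_zero _
    · exact Dvd.dvd.mul_left (h1 j 0 hj) _
  have h3 : ℓ ∣ dP DE ℓ - Polynomial.derivative ℓ := by
    refine prime_dvd_sub (T := fun f => dP DE f - Polynomial.derivative f) (fun f g => ?_)
      (A := II P d q (sw w o o) k) ?_ hpr (hdvd o ho) (hne o ho)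
    · rw [dP_mul, Polynomial.derivative_mul]
      ring
    · intro φ hφ
      exact shear0_mem_II (D := DE) (fun b => by
        fin_cases b
        · exact (hE0 q).trans (sub_self _)
        · exact hE1 q) (fun i _ _ => hE0 i) (fun i _ _ => hE1 i) hφ
  have h4 : ℓ ∣ Polynomial.derivative ℓ := by
    have := dvd_sub h2 h3
    rwa [sub_sub_cancel] at this
  have h5 : Polynomial.derivative ℓ ≠ 0 := by
    intro h6
    exact hℓ.natDegree_pos.ne' (Polynomial.derivative_eq_zero.1 h6)
  have h6 := Polynomial.degree_le_of_dvd h4 h5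
  have h7 := Polynomial.degree_derivative_lt hℓ.ne_zero
  exact absurd (h7.trans_le h6) (lt_irrefl _)

/-- **The dimensions of the annihilators grow by at least two in each step.** -/
theorem strict (hP : AlgebraicIndependent ℚ (fun ij : Fin n × Fin 2 => P ij.1 ij.2))
    (ho : o ≠ q) (hwo : w o = 0) (hw' : Above w w' q o) {l : ℕ}
    (h0 : 1 ≤ finrank K (II P d q w l)) :
    finrank K (II P d q w' l) + 2 ≤ finrank K (II P d q w' (l + 1)) ∨
      finrank K (II P d q w' (l + 1)) = l + 2 := by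
  have hle : ∀ j, j ≠ q → II P d q (sw w o j) l ≤ II P d q w' l := fun j hj =>
    II_mono fun i hi => hw' j hj i hi
  have h1 : 1 ≤ finrank K (II P d q w' l) := by
    refine h0.trans ?_
    rw [← finrank_II_sw (d := d) (w := w) hP ho ho l]
    exact Submodule.finrank_mono (hle o ho)
  have h2 := up_II (d := d) (w := w') (q := q) hP l h1
  have h3 : finrank K (II P d q w' (l + 1)) ≤ l + 2 := finrank_II_le
  have h4 : finrank K (II P d q w' l) ≤ l + 1 := finrank_II_le
  by_contra hcon
  push Not at hcon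
  obtain ⟨m, hm⟩ : ∃ m, finrank K (II P d q w' l) = m + 1 :=
    ⟨finrank K (II P d q w' l) - 1, by omega⟩
  have h5 : finrank K (II P d q w' (l + 1)) = m + 2 := by omega
  have hml : m + 1 ≤ l := by omega
  obtain ⟨κ, hκ0, hκ⟩ := ec m (II P d q w' l) hm (by
    rw [← h5]
    exact Submodule.finrank_mono (sh_II_le hP))
  obtain ⟨v, hv⟩ : ∃ v, l = v + m := ⟨l - m, by omega⟩
  have h6 : κ.natDegree = v := by
    refine deg_gen (d := d) (q := q) (w := w') hP hκ0 (m := m) ?_
    rw [← hv]
    exact hκ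
  obtain ⟨ℓ, hℓ, hdvd⟩ := exists_irr (κ := κ) (by omega)
  refine no_common_sub (d := d) (w := w) hP ho hwo h0 ⟨ℓ, hℓ, fun j hj φ hφ => ?_⟩
  have h7 := hle j hj hφ
  rw [hκ] at h7
  obtain ⟨g, -, hg⟩ := mem_ml.1 h7
  exact hdvd.trans ⟨g, hg⟩

end Pool.Agent.K4H28.SP
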