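import Pool.Agent.K4H28.SPB.Strict
import Pool.Agent.K4H28.SPB.Coll2
import Pool.Agent.K4H28.SPB.Num2
import Pool.Agent.K4H28.SP.FourFin

set_option autoImplicit false
set_option linter.unusedSectionVars false

/-!
# All multiplicities but the two largest ones impose independent conditions, and the optimal bound
for the superabundance
-/

namespace Pool.Agent.K4H28.SP

open MvPolynomial Module Pool.Agent.H248R5 Pool.Agent.H248R6

variable {K : Type} [Field K] [CharZero K] {n : ℕ}
variable {P : Fin n → Fin 2 → K} {d : ℕ} {q o : Fin n} {w w' : Fin n → ℕ} {m : Fin n → ℕ}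

theorem num2_inst (hP : AlgebraicIndependent ℚ (fun ij : Fin n × Fin 2 => P ij.1 ij.2))
    (ho : o ≠ q) (hwo : w o = 0) (hw' : Above w w' q o) :
    Num2 (fun k => finrank K (II P d q w k)) (fun k => finrank K (II P d q w' k)) where
  num := num_inst hP ho hwo hw'
  up' := fun k h => up_II hP k h
  strict := fun _ h => Pool.Agent.K4H28.SP.strict hP ho hwo hw' h

theorem forms_res_mono {S T : Finset (Fin n)} (h : S ⊆ T) :
    finrank K (forms (res m T) P d) ≤ finrank K (forms (res m S) P d) := by
  refine Submodule.finrank_mono (forms_le fun i => ?_)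
  unfold res
  split_ifs with h1 h2
  · exact le_rfl
  · exact absurd (h h1) h2
  · exact Nat.zero_le _
  · exact le_rfl

/-- If three more points can be added, then the first of them imposes independent conditions. -/
theorem no_fail (hP : AlgebraicIndependent ℚ (fun ij : Fin n × Fin 2 => P ij.1 ij.2))
    {S : Finset (Fin n)} {a b e : Fin n} (hq : q ∉ insert e (insert b (insert a S)))
    (ha : a ∉ S) (hb : b ∉ insert a S) (he : e ∉ insert b (insert a S))
    (hS : ∀ i ∈ S, m i ≤ m e) (hab : m a ≤ m b)
    (hne : 1 ≤ finrank K (forms (res m (insert e (insert b (insert a S)))) P d)) {μ : ℕ}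
    (hμ : μ < m a) : finrank K (II P d q (res m S) μ) = 0 := by
  classical
  by_contra hcon
  simp only [Finset.mem_insert, not_or] at hq hb he
  obtain ⟨hqe, hqb, hqa, hqS⟩ := hq
  obtain ⟨hba, hbS⟩ := hb
  obtain ⟨heb, hea, heS⟩ := he
  have hNum0 := num_inst (d := d) (q := q) hP (o := e) (fun h => hqe h.symm) (res_not heS)
    (above_update (M := m e) (res_not heS) (res_le hS))
  have h1 := collide (P := P) (d := d) (q := q) (o := b) (w := Function.update (res m S) e (m e))
    (fun h => hqb h.symm) (by
      rw [Function.update_of_ne (fun h => heb h.symm)]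
      exact res_not hbS) (a := m a) (fun l hl => by
      have h2 := hNum0.lemB (μ := μ) (Nat.pos_of_ne_zero hcon) (l := l) (by omega)
      omega)
  rw [← finrank_gen hP] at h1
  have h2 : finrank K (LL P d q (res m (insert b (insert e S))) (m a)) = 0 := by
    refine Nat.eq_zero_of_le_zero (le_trans (Submodule.finrank_mono ?_) h1.le)
    unfold LL
    refine forms_le fun i => ?_
    have hbeS : b ∉ insert e S := by
      rw [Finset.mem_insert]
      rintro (h | h)
      · exact heb h.symm
      · exact hbS h
    rw [res_insert hbeS, res_insert heS]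
    by_cases hib : i = b
    · subst hib
      rw [Function.update_self, Function.update_of_ne (fun h => hqb h.symm),
        Function.update_self]
      exact hab
    · rw [Function.update_of_ne hib]
      by_cases hiq : i = q
      · subst hiq
        rw [Function.update_self, Function.update_self]
      · rw [Function.update_of_ne hiq, Function.update_of_ne hiq, Function.update_of_ne hib]
  have h3 := LL_insert (m := m) (d := d) (q := q) (S := insert b (insert e S)) (a := a) hP (by
    simp only [Finset.mem_insert, not_or]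
    exact ⟨hqb, hqe, hqS⟩) (by
    simp only [Finset.mem_insert, not_or]
    exact ⟨fun h => hba h.symm, fun h => hea h.symm, ha⟩) (fun h => hqa h.symm)
  have h4 : insert a (insert b (insert e S)) = insert e (insert b (insert a S)) := by
    ext i
    simp only [Finset.mem_insert]
    tauto
  rw [h2, h4] at h3
  omega

variable {U : ℕ → Finset (Fin n)} {a : ℕ → Fin n} {s : ℕ}

theorem Chain.sub (hc : Chain m q U a s) (r : ℕ) : ∀ t, U (t + r) ⊆ U t := by
  classical
  induction r with
  | zero => exact fun t => Finset.Subset.refl _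
  | succ r ih =>
    intro t
    have h1 : t + (r + 1) = t + r + 1 := rfl
    rw [h1]
    refine Finset.Subset.trans ?_ (ih t)
    rcases Nat.lt_or_ge (t + r) s with h2 | h2
    · rw [hc.ins (t + r) h2]
      exact Finset.subset_insert _ _
    · rw [hc.nil (t + r + 1) (by omega)]
      exact Finset.empty_subset _

/-- **All multiplicities but the two largest ones.** -/
theorem chain_two (hP : AlgebraicIndependent ℚ (fun ij : Fin n × Fin 2 => P ij.1 ij.2))
    (hc : Chain m q U a s) (hne : 1 ≤ finrank K (forms (res m (U 0)) P d)) :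
    ∀ k t, t + 2 + k = s → Indep P d m (U (t + 2)) := by
  classical
  intro k
  induction k with
  | zero =>
    intro t ht
    rw [hc.nil (t + 2) (by omega)]
    exact indep_empty
  | succ k ih =>
    intro t ht
    have h1 := ih (t + 1) (by omega)
    have h2 : t + 1 + 2 = t + 2 + 1 := by omega
    rw [h2] at h1
    have e0 := hc.ins t (by omega)
    have e1 := hc.ins (t + 1) (by omega)
    have e2 := hc.ins (t + 2) (by omega)
    have n0 := hc.nmem t (by omega)
    have n1 := hc.nmem (t + 1) (by omega)
    have n2 := hc.nmem (t + 2) (by omega)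
    have e3 : t + 1 + 1 = t + 2 := rfl
    rw [e3] at e1 n1
    have hq : q ∉ U t := hc.not_mem' t
    have hU : insert (a t) (insert (a (t + 1)) (insert (a (t + 2)) (U (t + 2 + 1)))) = U t := by
      rw [e0, e1, e2]
    have hmono : ∀ i ∈ U (t + 2 + 1), m i ≤ m (a t) := by
      intro i hi
      refine hc.big t (by omega) i ?_
      rw [e1, e2]
      exact Finset.mem_insert_of_mem (Finset.mem_insert_of_mem hi)
    have hab : m (a (t + 2)) ≤ m (a (t + 1)) := hc.mono (by omega)
    have hne' : 1 ≤ finrank K (forms (res m (U t)) P d) := by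
      refine hne.trans (forms_res_mono ?_)
      have := hc.sub t 0
      rwa [zero_add] at this
    have hfail : ∀ μ, μ < m (a (t + 2)) →
        finrank K (II P d q (res m (U (t + 2 + 1))) μ) = 0 := by
      intro μ hμ
      refine no_fail (e := a t) (b := a (t + 1)) (a := a (t + 2)) hP ?_ n2 ?_ ?_ hmono hab ?_ hμ
      · rw [hU]
        exact hq
      · rw [← e2]
        exact n1
      · rw [← e2, ← e1]
        exact n0
      · rw [hU]
        exact hne'
    have h3 := sum_insert_eq (m := m) (d := d) (q := q) (S := U (t + 2 + 1)) (a := a (t + 2)) hP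
      (hc.not_mem' _) n2 (hc.ne _ (by omega))
    rw [Finset.sum_eq_zero fun μ hμ => hfail μ (Finset.mem_range.1 hμ), ← e2] at h3
    unfold Indep at h1 ⊢
    have h4 : ∑ i ∈ U (t + 2), (m i + 1).choose 2 =
        (m (a (t + 2)) + 1).choose 2 + ∑ i ∈ U (t + 2 + 1), (m i + 1).choose 2 := by
      conv_lhs => rw [e2]
      rw [Finset.sum_insert n2]
    omega

/-- A degree in which not all the leading forms occur. -/
theorem exists_notfull (hP : AlgebraicIndependent ℚ (fun ij : Fin n × Fin 2 => P ij.1 ij.2))
    {M : ℕ} (hM : 1 ≤ finrank K (LL P d q w M)) :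
    ∃ ν, M ≤ ν ∧ finrank K (II P d q w ν) ≤ ν := by
  by_contra hcon
  push Not at hcon
  have h2 : ∀ r, finrank K (LL P d q w M) = finrank K (LL P d q w (M + r)) := by
    intro r
    induction r with
    | zero => rfl
    | succ r ih =>
      have h3 := finrank_II (P := P) (d := d) (q := q) (w := w) (k := M + r)
      have h4 := hcon (M + r) (by omega)
      have h5 := finrank_II_le (P := P) (d := d) (q := q) (w := w) (k := M + r)
      have h6 : M + (r + 1) = M + r + 1 := rfl
      rw [h6]
      omega
  have h3 := h2 (d + 1)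
  rw [LL_big (k := M + (d + 1)) (by omega), finrank_bot] at h3
  omega

/-- **The superabundance.** -/
theorem chain_super (hP : AlgebraicIndependent ℚ (fun ij : Fin n × Fin 2 => P ij.1 ij.2))
    (hc : Chain m q U a s) (hs : 0 < s) (hne : 1 ≤ finrank K (forms (res m (U 0)) P d)) :
    tot P d m (U 0) ≤ (d + 2).choose 2 + (m (a 0)).choose 2 := by
  classical
  have e0 := hc.ins 0 hs
  have ha := hc.nmem 0 hs
  have haq := hc.ne 0 hs
  have hqS : q ∉ U (0 + 1) := hc.not_mem' (0 + 1)
  have e3 := sum_insert_eq (m := m) (d := d) hP hqS ha haq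
  have e4 := LL_insert (m := m) (d := d) hP hqS ha haq
  have hsum : ∑ i ∈ U 0, (m i + 1).choose 2 =
      (m (a 0) + 1).choose 2 + ∑ i ∈ U (0 + 1), (m i + 1).choose 2 := by
    rw [e0, Finset.sum_insert ha]
  rw [← e0] at e3 e4
  have h1 : 1 ≤ finrank K (LL P d q (res m (U (0 + 1))) (m (a 0))) := by rwa [e4]
  have hch : ∑ k ∈ Finset.range (m (a 0)), k = (m (a 0)).choose 2 := by
    rw [Finset.sum_range_id, Nat.choose_two_right]
  rcases Nat.lt_or_ge 1 s with h2 | h2
  · have f0 := hc.ins 1 h2
    have fa := hc.nmem 1 h2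
    have faq := hc.ne 1 h2
    have fqS : q ∉ U (1 + 1) := hc.not_mem' (1 + 1)
    have f3 := sum_insert_eq (m := m) (d := d) hP fqS fa faq
    have hsum1 : ∑ i ∈ U 1, (m i + 1).choose 2 =
        (m (a 1) + 1).choose 2 + ∑ i ∈ U (1 + 1), (m i + 1).choose 2 := by
      rw [f0, Finset.sum_insert fa]
    rw [← f0] at f3
    have hind : Indep P d m (U (0 + 2)) := by
      obtain ⟨r, rfl⟩ := Nat.exists_eq_add_of_le h2
      exact chain_two hP hc hne r 0 (by omega)
    have hNum : Num2 (fun k => finrank K (II P d q (res m (U (1 + 1))) k))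
        (fun k => finrank K (II P d q (res m (U 1)) k)) := by
      rw [f0, res_insert fa]
      exact num2_inst hP faq (res_not fa) (above_update (res_not fa) (res_le (hc.big 1 h2)))
    obtain ⟨ν, hν1, hν2⟩ := exists_notfull hP h1
    have h5 := hNum.bound (m := m (a 0)) (m2 := m (a 1)) (hc.mono (t := 0) h2) hν1 hν2
      (fun k hk => notfull hP h1 hk)
    have hind' : finrank K (forms (res m (U (1 + 1))) P d) +
      ∑ i ∈ U (1 + 1), (m i + 1).choose 2 = (d + 2).choose 2 := hind
    have g1 : (0 : ℕ) + 1 = 1 := rfl
    rw [g1] at e3 hsum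
    unfold tot
    omega
  · have h3 : U (0 + 1) = ∅ := hc.nil _ h2
    have h4 : ∑ k ∈ Finset.range (m (a 0)), finrank K (II P d q (res m (U (0 + 1))) k) ≤
        ∑ k ∈ Finset.range (m (a 0)), k :=
      Finset.sum_le_sum fun k hk => notfull hP h1 (Finset.mem_range.1 hk)
    rw [h3] at e3 hsum h4
    rw [Finset.sum_empty] at hsum
    have h5 := forms_empty (m := m) (d := d) (P := P)
    unfold tot
    omega

/-- **Both results for the generic dimension.** -/
theorem gd_two_largest {s d : ℕ} {m : ℕ → ℕ} (hm : Antitone m)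
    (hne : 1 ≤ gd (fun i : Fin s => m i) d) :
    (∀ t, 2 ≤ t → gd (fun i : Fin (s - t) => m (i + t)) d +
      ∑ i : Fin (s - t), (m (i + t) + 1).choose 2 = (d + 2).choose 2) ∧
    gd (fun i : Fin s => m i) d + ∑ i : Fin s, (m i + 1).choose 2 ≤
      (d + 2).choose 2 + (m 0).choose 2 := by
  classical
  have hP := gpt_ind (s + 1)
  have hc := chain_aa (s := s) hm
  have e1 : UU s 0 = Finset.univ := by
    ext i
    rw [mem_UU]
    exact ⟨fun _ => Finset.mem_univ _, fun _ => Nat.zero_le _⟩
  have h1 : finrank (PtF (s + 1)) (forms (res (ext0 (fun i : Fin s => m i))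
      ((fun t => sucs (UU s t)) 0)) (gpt (s + 1)) d) = gd (fun i : Fin s => m i) d := by
    change finrank (PtF (s + 1)) (forms (res (ext0 (fun i : Fin s => m i)) (sucs (UU s 0)))
      (gpt (s + 1)) d) = _
    rw [gd_res, e1, res_univ]
  constructor
  · intro t ht
    obtain ⟨r, rfl⟩ := Nat.exists_eq_add_of_le ht
    rcases Nat.lt_or_ge (2 + r) s with h2 | h2
    · obtain ⟨k, hk⟩ := Nat.exists_eq_add_of_le h2.le
      have h3 := chain_two (d := d) hP hc (by rw [h1]; exact hne) k r (by omega)
      have h4 : r + 2 = 2 + r := by omega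
      rw [h4] at h3
      exact indep_UU h3
    · refine indep_UU ?_
      rw [UU_nil h2]
      exact indep_empty
  · rcases Nat.eq_zero_or_pos s with h0 | h0
    · subst h0
      have h2 : Indep (gpt (0 + 1)) d (ext0 (fun i : Fin 0 => m i)) (sucs (UU 0 0)) := by
        rw [UU_nil le_rfl]
        exact indep_empty
      have h3 : gd (fun i : Fin 0 => m i) d + ∑ i : Fin 0, (m i + 1).choose 2 =
        (d + 2).choose 2 := indep_UU h2
      rw [h3]
      omega
    · have h2 : tot (gpt (s + 1)) d (ext0 (fun i : Fin s => m i)) ((fun t => sucs (UU s t)) 0) =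
          gd (fun i : Fin s => m i) d + ∑ i : Fin s, (m i + 1).choose 2 := by
        unfold tot
        rw [h1]
        congr 1
        change ∑ i ∈ sucs (UU s 0), (ext0 (fun i : Fin s => m i) i + 1).choose 2 = _
        rw [sum_sucs, e1]
      have h3 := chain_super (d := d) hP hc h0 (by rw [h1]; exact hne)
      rw [h2, ext0_aa h0] at h3
      exact h3

end Pool.Agent.K4H28.SP
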